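import Pool.Agent.Mg.Fcf0a82q.G860694

/-! The family of all polar quadrics along a disc of singular points is an immersion. -/

open Complex Filter Topology Function

noncomputable section

namespace Pool.Agent.MP_f58063_ag

variable {g : ℕ} {τ : Mat g}

lemma xh_Ab_prod {p : EE g} {ι : Type} (s : Finset ι) {F : ι → EE g → ℂ}
    (h : ∀ i ∈ s, Ab τ p (F i)) : Ab τ p fun z => ∏ i ∈ s, F i z := by
  classical
  induction s using Finset.induction_on with
  | empty => simpa using Ab.const τ p 1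
  | insert a s ha ih =>
    simp only [Finset.prod_insert ha]
    exact (h a (Finset.mem_insert_self _ _)).mul
      (ih fun i hi => h i (Finset.mem_insert_of_mem hi))

lemma xh_Ab_det {p : EE g} {n : ℕ} {A : EE g → Matrix (Fin n) (Fin n) ℂ}
    (h : ∀ a b, Ab τ p fun z => A z a b) : Ab τ p fun z => (A z).det := by
  simp only [Matrix.det_apply']
  exact Ab.sum _ fun σ _ => (Ab.const τ p _).mul (xh_Ab_prod _ fun i _ => h _ _)

lemma xh_clm_mat {n : ℕ} (π : Mat g →L[ℂ] (Fin n → ℂ)) (A : Mat g) (a : Fin n) :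
    π A a = ∑ i, ∑ j, A i j * π (Pi.single i (Pi.single j 1)) a := by
  have e : A = ∑ i, ∑ j, A i j • (Pi.single i (Pi.single j 1) : Mat g) := by
    funext x y
    simp only [Finset.sum_apply, Pi.smul_apply, smul_eq_mul]
    rw [Finset.sum_eq_single x, Finset.sum_eq_single y]
    · simp
    · intro b _ hb
      simp [hb.symm]
    · simp
    · intro b _ hb
      simp [hb.symm]
    · simp
  conv_lhs => rw [e]
  simp only [map_sum, map_smul, Finset.sum_apply, Pi.smul_apply, smul_eq_mul]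

lemma xh_left {n : ℕ} {Q : Fin n → Mat g} (h : LinearIndependent ℂ Q) :
    ∃ π : Mat g →L[ℂ] (Fin n → ℂ), ∀ l, π (Q l) = Pi.single l 1 := by
  have hi : Injective (Fintype.linearCombination ℂ Q) :=
    linearIndependent_iff_injective_fintypeLinearCombination.1 h
  obtain ⟨π, hπ⟩ := (Fintype.linearCombination ℂ Q).exists_leftInverse_of_injective
    (LinearMap.ker_eq_bot.2 hi)
  refine ⟨LinearMap.toContinuousLinearMap π, fun l => ?_⟩
  have h1 := congrArg (fun A => A (Pi.single l 1)) hπ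
  simpa [Fintype.linearCombination_apply_single] using h1

/-- the map `(s, c) ↦ ∑ c_l Q_l(s)` is generically an immersion -/
theorem linG (hτ : τ ∈ Siegel g) (hs : IsSimple τ) {k n μ : ℕ} {γ : (Fin k → ℂ) → EE g}
    (hγ : AnalyticAt ℂ γ 0) (hi : Injective (fderiv ℂ γ 0)) (L : Fin n → List (Fin g))
    (hL : ∀ l, (L l).length = μ)
    (hv : ∀ᶠ s in 𝓝 0, ∀ L' : List (Fin g), L'.length ≤ μ + 1 → dI L' (theta τ) (γ s) = 0)
    {Q : Fin n → (Fin k → ℂ) → Mat g}
    (hQ : ∀ l s i j, Q l s i j = dI (i :: j :: L l) (theta τ) (γ s))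
    (hind : LinearIndependent ℂ fun l => Q l 0) {c₀ : Fin n → ℂ} (hc₀ : c₀ ≠ 0) :
    ∃ᶠ p in 𝓝 (0 : (Fin k → ℂ) × (Fin n → ℂ)), Injective
      (fderiv ℂ (fun p : (Fin k → ℂ) × (Fin n → ℂ) => ∑ l, (c₀ + p.2) l • Q l p.1) p) := by
  classical
  intro hc
  have hθ := theta_analytic (Siegel_sub hτ)
  obtain ⟨π, hπ⟩ := xh_left hind
  have hQa : ∀ l s, AnalyticAt ℂ γ s → AnalyticAt ℂ (Q l) s := fun l s h =>
    analyticAt_pi_iff.2 fun i => analyticAt_pi_iff.2 fun j => by
      simp only [hQ]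
      exact (analyticAt_dI (hθ _) _).comp h
  let M : (Fin k → ℂ) → Matrix (Fin n) (Fin n) ℂ := fun s => Matrix.of fun a l => π (Q l s) a
  have hM0 : (M 0).det ≠ 0 := by
    have : M 0 = 1 := by
      ext a l
      simp only [M, Matrix.of_apply, hπ, Pi.single_apply, Matrix.one_apply]
    rw [this, Matrix.det_one]
    exact one_ne_zero
  have hMa : AnalyticAt ℂ (fun s => (M s).det) 0 := by
    simp only [Matrix.det_apply']
    refine Finset.analyticAt_fun_sum _ fun σ _ => analyticAt_const.mul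
      (Finset.analyticAt_fun_prod _ fun i _ => ?_)
    exact analyticAt_pi_iff.1 ((π.analyticAt _).comp (hQa i 0 hγ)) _
  have hMv : ∀ s (c : Fin n → ℂ), (M s).mulVec c = π (∑ l, c l • Q l s) := fun s c => by
    funext a
    simp only [M, Matrix.mulVec, dotProduct, Matrix.of_apply, map_sum, map_smul,
      Finset.sum_apply, Pi.smul_apply, smul_eq_mul, mul_comm]
  set N : (Fin k → ℂ) × (Fin n → ℂ) → Mat g := fun p => ∑ l, (c₀ + p.2) l • Q l p.1 with hN
  have hNa : ∀ p : (Fin k → ℂ) × (Fin n → ℂ), AnalyticAt ℂ γ p.1 → AnalyticAt ℂ N p :=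
    fun p hp => Finset.analyticAt_fun_sum _ fun l _ =>
      (analyticAt_pi_iff.1 (analyticAt_const.add analyticAt_snd) l).smul
        (AnalyticAt.comp (g := Q l) (hQa l _ hp) analyticAt_fst)
  have hU1 : ∀ᶠ s in 𝓝 (0 : Fin k → ℂ), AnalyticAt ℂ γ s ∧ Injective (fderiv ℂ γ s) ∧
      (∀ L' : List (Fin g), L'.length ≤ μ + 1 → dI L' (theta τ) (γ s) = 0) ∧ (M s).det ≠ 0 :=
    hγ.eventually_analyticAt.and ((eventually_inj hγ hi).and
      (hv.and (hMa.continuousAt.eventually_ne hM0)))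
  have hU2 : ∀ᶠ c in 𝓝 (0 : Fin n → ℂ), c₀ + c ≠ 0 :=
    (continuous_const.add continuous_id).continuousAt.eventually_ne (by simpa using hc₀)
  have hU : ∀ᶠ p in 𝓝 (0 : (Fin k → ℂ) × (Fin n → ℂ)), (AnalyticAt ℂ γ p.1 ∧
      Injective (fderiv ℂ γ p.1) ∧
      (∀ L' : List (Fin g), L'.length ≤ μ + 1 → dI L' (theta τ) (γ p.1) = 0) ∧
      (M p.1).det ≠ 0) ∧ c₀ + p.2 ≠ 0 :=
    ((continuous_fst.tendsto (0 : (Fin k → ℂ) × (Fin n → ℂ))).eventually hU1).and
      ((continuous_snd.tendsto (0 : (Fin k → ℂ) × (Fin n → ℂ))).eventually hU2)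
  obtain ⟨κ, hκ0, hκ, hκd, hκf⟩ := fibre_curve (hNa 0 hγ) hc hU.eventually_nhds
  have h3 := hκ.continuousAt.eventually hκ0
  obtain ⟨⟨ha, hinj, hv0, hdet⟩, hc0⟩ := h3.self_of_nhds
  have hκ' := hκ.differentiableAt.hasDerivAt
  have hs1 : HasDerivAt (fun t => (κ t).1) (deriv κ 0).1 0 := hκ'.fst
  have hs2 : HasDerivAt (fun t => (κ t).2) (deriv κ 0).2 0 := hκ'.snd
  have hne : (deriv κ 0).1 ≠ 0 := by
    intro h0
    have d1 : ∀ l, HasDerivAt (fun t => (c₀ + (κ t).2) l • Q l (κ t).1)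
        ((deriv κ 0).2 l • Q l (κ 0).1) 0 := fun l => by
      have e1 : HasDerivAt (fun t => (c₀ + (κ t).2) l) ((deriv κ 0).2 l) 0 :=
        (hasDerivAt_pi.1 hs2 l).const_add (c₀ l)
      have e2 : HasDerivAt (fun t => Q l (κ t).1) 0 0 := by
        have := (hQa l _ ha).differentiableAt.hasFDerivAt.comp_hasDerivAt 0 hs1
        rwa [h0, map_zero] at this
      have e3 := e1.fun_smul e2
      rw [smul_zero, zero_add] at e3
      exact e3
    have d2 : HasDerivAt (fun t => N (κ t)) (∑ l, (deriv κ 0).2 l • Q l (κ 0).1) 0 :=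
      HasDerivAt.fun_sum fun l _ => d1 l
    have d3 := d2.unique ((hasDerivAt_const 0 (N (κ 0))).congr_of_eventuallyEq hκf)
    have d4 : (M (κ 0).1).mulVec (deriv κ 0).2 = 0 := by rw [hMv, d3, map_zero]
    exact hκd (Prod.ext h0 (Matrix.eq_zero_of_mulVec_eq_zero hdet d4))
  have hsa : AnalyticAt ℂ (fun t => (κ t).1) 0 := analyticAt_fst.comp hκ
  have hδ : AnalyticAt ℂ (fun t => γ (κ t).1) 0 := AnalyticAt.comp (g := γ) ha hsa
  have hδd : deriv (fun t => γ (κ t).1) 0 ≠ 0 := by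
    have := (ha.differentiableAt.hasFDerivAt.comp_hasDerivAt 0 hs1).deriv
    rw [show (fun t => γ (κ t).1) = γ ∘ fun t => (κ t).1 from rfl, this]
    exact fun h => hne (hinj (h.trans (map_zero _).symm))
  have hQ0 : N (κ 0) ≠ 0 := fun h => hc0 (Matrix.eq_zero_of_mulVec_eq_zero hdet (by
    rw [hMv]
    exact (congrArg π h).trans (map_zero π)))
  obtain ⟨i₀, j₀, hij⟩ : ∃ i j, N (κ 0) i j ≠ 0 := by
    by_contra h
    push Not at h
    exact hQ0 (funext fun i => funext fun j => h i j)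
  obtain ⟨η, hη, hη0, hA⟩ := theta_unit hτ (γ (κ 0).1)
  let T : Fin n → EE g → Mat g := fun l z i j =>
    dI (i :: j :: L l) (fun z => η z * theta τ z) z
  let Mη : EE g → Matrix (Fin n) (Fin n) ℂ := fun z => Matrix.of fun a l => π (T l z) a
  let cr : EE g → Fin n → ℂ := fun z => Matrix.cramer (Mη z) (π (N (κ 0)))
  have hMη : ∀ a l, Ab τ (γ (κ 0).1) fun z => Mη z a l := fun a l => by
    simp only [Mη, Matrix.of_apply, xh_clm_mat π (T l _)]
    exact Ab.sum _ fun i _ => Ab.sum _ fun j _ => (hA.dI _).mul (Ab.const τ _ _)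
  have hcr : ∀ l, Ab τ (γ (κ 0).1) fun z => cr z l := fun l => by
    simp only [cr, Matrix.cramer_apply]
    refine xh_Ab_det fun a b => ?_
    simp only [Matrix.updateCol_apply]
    split_ifs
    · exact Ab.const τ _ _
    · exact hMη a b
  let lam : EE g →L[ℂ] ℂ := ∑ i, N (κ 0) i j₀ • (ContinuousLinearMap.proj i : EE g →L[ℂ] ℂ)
  let G : EE g → ℂ := fun z => ∑ l, cr z l * dI (j₀ :: L l) (fun z => η z * theta τ z) z
  have hG : Ab τ (γ (κ 0).1) G := Ab.sum _ fun l _ => (hcr l).mul (hA.dI _)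
  have key : ∀ᶠ t in 𝓝 0, G (γ (κ t).1) = 0 ∧
      fderiv ℂ G (γ (κ t).1) = (η (γ (κ t).1) ^ n * (M (κ t).1).det) • lam := by
    filter_upwards [h3, hκf, hδ.continuousAt.eventually hη.eventually_analyticAt,
      hδ.continuousAt.eventually (hη.continuousAt.eventually_ne hη0),
      hδ.continuousAt.eventually (eventually_all.2 fun l => (hcr l).analyticAt.eventually_analyticAt)]
      with t ⟨⟨_, _, hvt, _⟩, _⟩ hft hηt hη1 hct
    set z := γ (κ t).1 with hz
    have hm := dI_mul_unit hηt (hθ z) (m := μ + 2) (fun L' hL' => hvt L' (by omega))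
    have h1 : ∀ l, dI (j₀ :: L l) (fun z => η z * theta τ z) z = 0 := fun l => by
      rw [hm _ (by simp [hL]), hvt _ (by simp [hL]), mul_zero]
    have h2 : ∀ l, T l z = η z • Q l (κ t).1 := fun l => by
      funext i j
      simp only [T, Pi.smul_apply, smul_eq_mul, hQ]
      exact hm _ (by simp [hL])
    have h4 : Mη z = η z • M (κ t).1 := by
      ext a l
      simp only [Mη, M, Matrix.of_apply, h2, map_smul, Pi.smul_apply, Matrix.smul_apply]
    have h5 : (Mη z).mulVec ((η z)⁻¹ • (c₀ + (κ t).2)) = π (N (κ 0)) := by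
      rw [h4, Matrix.smul_mulVec, Matrix.mulVec_smul, smul_smul, mul_inv_cancel₀ hη1, one_smul,
        hMv, ← hft]
    have h6 : cr z = (η z ^ n * (M (κ t).1).det) • ((η z)⁻¹ • (c₀ + (κ t).2)) := by
      simp only [cr]
      rw [← h5, Matrix.cramer_eq_adjugate_mulVec, Matrix.mulVec_mulVec, Matrix.adjugate_mul,
        Matrix.smul_mulVec, Matrix.one_mulVec, h4, Matrix.det_smul, Fintype.card_fin]
    refine ⟨Finset.sum_eq_zero fun l _ => by rw [h1, mul_zero], ?_⟩
    have h7 : ∀ l, HasFDerivAt (fun z => cr z l * dI (j₀ :: L l) (fun z => η z * theta τ z) z)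
        (cr z l • fderiv ℂ (dI (j₀ :: L l) (fun z => η z * theta τ z)) z) z := fun l => by
      have := (hct l).differentiableAt.hasFDerivAt.mul
        (analyticAt_dI (f := fun z => η z * theta τ z) (hηt.mul (hθ z))
          (j₀ :: L l)).differentiableAt.hasFDerivAt
      refine this.congr_fderiv (ContinuousLinearMap.ext fun v => ?_)
      rw [h1]
      simp
    rw [(HasFDerivAt.fun_sum fun l _ => h7 l).fderiv]
    refine xdisc_ext fun i => ?_
    have h8 : ∀ l, fderiv ℂ (dI (j₀ :: L l) (fun z => η z * theta τ z)) z (ee i) =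
        η z * Q l (κ t).1 i j₀ := fun l => congrFun (congrFun (h2 l) i) j₀
    have h9 : lam (ee i) = ∑ l, (c₀ + (κ t).2) l * Q l (κ t).1 i j₀ := by
      have e : lam (ee i) = N (κ 0) i j₀ := by
        simp [lam, Pi.single_apply]
      rw [e, ← hft]
      simp only [hN, Finset.sum_apply, Pi.smul_apply, smul_eq_mul]
    simp only [_root_.sum_apply, _root_.smul_apply, smul_eq_mul, h8, h9, h6, Pi.smul_apply,
      Finset.mul_sum]
    refine Finset.sum_congr rfl fun l _ => ?_
    field_simp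
  refine disc_not_simple hτ hδ hδd hG (fun h => ?_) (lam := lam)
    (key.mono fun t ht => ⟨ht.1, _, ht.2⟩) hs
  have h1 := congrArg (fun A : EE g →L[ℂ] ℂ => A (ee i₀)) (key.self_of_nhds.2.symm.trans h)
  have e : lam (ee i₀) = N (κ 0) i₀ j₀ := by simp [lam, Pi.single_apply]
  simp only [_root_.smul_apply, e, smul_eq_mul, _root_.zero_apply] at h1
  exact mul_ne_zero (mul_ne_zero (pow_ne_zero _ hη0) hdet) hij h1

end Pool.Agent.MP_f58063_ag
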