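import Pool.Agent.Mg.Fcf0a82q.G43ea66
import Pool.Agent.MP_f58063_ag.H.Lin

/-! Nash families of conormal polar quadrics. -/

open Complex Filter Topology Matrix Function

noncomputable section

namespace Pool.Agent.MP_f58063_ag

/-- the polar quadric along a list of coordinates -/
def pol {g : ℕ} (τ : Mat g) (z : EE g) (L : List (Fin g)) : Mat g :=
  fun i j => dI (i :: j :: L) (theta τ) z

/-- along every `k`-dimensional disc through `z` on which the order of vanishing is constant there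
are `n` independent polar quadrics of corank at least `r`, with `c ≤ k + n + r (r + 1) / 2` -/
def PolData {g : ℕ} (τ : Mat g) (z : EE g) (k c : ℕ) : Prop :=
  ∀ γ : (Fin k → ℂ) → EE g, AnalyticAt ℂ γ 0 → Injective (fderiv ℂ γ 0) → γ 0 = z →
    (∀ L, dI L (theta τ) z = 0 → ∀ᶠ s in 𝓝 0, dI L (theta τ) (γ s) = 0) →
    ∃ (n r μ : ℕ) (L : Fin n → List (Fin g)), c ≤ k + n + r * (r + 1) / 2 ∧ 0 < n ∧
      (∀ l, (L l).length = μ) ∧ (∀ L' : List (Fin g), L'.length ≤ μ + 1 → dI L' (theta τ) z = 0) ∧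
      LinearIndependent ℂ (fun l => pol τ z (L l)) ∧
      ∀ a : Fin n → ℂ, (Matrix.of (∑ l, a l • pol τ z (L l))).rank + r ≤ g

lemma xh_par {X : Type} [NormedAddCommGroup X] [NormedSpace ℂ X] {n : ℕ}
    {H : (Fin n → ℂ) × X → ℂ} {p v : X} (hH : ∀ l, AnalyticAt ℂ H (l, p))
    (h : ∀ r : Fin n → ℚ, fderiv ℂ (fun q => H (fun i => (r i : ℂ), q)) p v = 0)
    (l : Fin n → ℂ) : fderiv ℂ (fun q => H (l, q)) p v = 0 := by
  have e : ∀ l : Fin n → ℂ, fderiv ℂ (fun q => H (l, q)) p v = dv (0, v) H (l, p) := by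
    intro l
    have h1 := ((hH l).differentiableAt.hasFDerivAt.comp p (hasFDerivAt_prodMk_right l p)).fderiv
    exact congrArg (fun A => A v) h1
  rw [e]
  refine congrFun (entire_zero_of_rat (f := fun l => dv (0, v) H (l, p)) (fun l => ?_)
    (fun r => ?_)) l
  · exact AnalyticAt.comp (g := dv (0, v) H) (f := fun l : Fin n → ℂ => (l, p))
      (analyticAt_dv (hH l) _) (analyticAt_id.prod analyticAt_const)
  · rw [← e]
    exact h r

/-- a generic conormal polar quadric -/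
theorem famG {d g k c : ℕ} {B : Set (Fin d → ℂ)} (hB : IsOpen B) (hBc : IsPreconnected B)
    {ψ : (Fin d → ℂ) → Mat g} (hψ : AnalyticOnNhd ℂ ψ B) {S : Mat g → Set (EE g)}
    (hAM : ∀ x ∈ B, ψ x ∈ Siegel g ∧ ∃ z, DimGE (S (ψ x)) z k)
    (hS : ∀ τ ∈ Siegel g, ∀ z ∈ S τ, PolData τ z k c)
    {x₁ : Fin d → ℂ} (hx₁ : x₁ ∈ B) (hs : IsSimple (ψ x₁))
    {β : (Fin d → ℂ) × Mat g → Mat g} (hβ : AnalyticOnNhd ℂ β (B ×ˢ Set.univ))
    (hβl : ∀ x ∈ B, ∃ L : Mat g →L[ℂ] Mat g, Injective L ∧ ∀ Q, β (x, Q) = L Q)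
    {R : Set ((Fin d → ℂ) × Mat g → ℂ)} (hR : ∀ f ∈ R, AnalyticOnNhd ℂ f (B ×ˢ Set.univ))
    (hc : R.Countable) :
    ∃ x ∈ B, ∃ (Q : Mat g) (n r : ℕ), c ≤ k + n + r * (r + 1) / 2 ∧ Q ≠ 0 ∧
      (∀ i j, Q i j = Q j i) ∧ (Matrix.of Q).rank + r ≤ g ∧
      (∀ ξ, ∑ i, ∑ j, fderiv ℂ ψ x ξ i j * Q i j = 0) ∧
      (∀ ξ, ∃ η, ∀ f ∈ R, f (x, β (x, Q)) = 0 → fderiv ℂ f (x, β (x, Q)) (ξ, η) = 0) ∧
      ∃ ν : (Fin k → ℂ) × (Fin n → ℂ) → Mat g, AnalyticAt ℂ ν 0 ∧ ν 0 = β (x, Q) ∧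
        (∃ᶠ s in 𝓝 0, Injective (fderiv ℂ ν s)) ∧
        ∀ f ∈ R, f (x, β (x, Q)) = 0 → ∀ᶠ s in 𝓝 0, f (x, ν s) = 0 := by
  have hτB : ∀ x ∈ B, ψ x ∈ Siegel g := fun x hx => (hAM x hx).1
  obtain ⟨δ, hδc, hδ, hδs⟩ := simple_locus (hτB x₁ hx₁) hs
  have hG := residual_ne (R := (fun f x => f (ψ x)) '' δ) (hδc.image _) hB hBc (by
    rintro _ ⟨f, hf, rfl⟩
    exact ⟨fun x hx => ((hδ f hf).1 _).comp (hψ x hx), x₁, hx₁, (hδ f hf).2⟩)
  let F₀ : (Fin d → ℂ) × EE g → ℂ := fun p => Theta g (ψ p.1, p.2)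
  have hΨ : ∀ x ∈ B, ∀ z : EE g,
      AnalyticAt ℂ (fun p : (Fin d → ℂ) × EE g => (ψ p.1, p.2)) (x, z) := fun x hx z =>
    (AnalyticAt.comp (g := ψ) (hψ x hx) analyticAt_fst).prod analyticAt_snd
  have hTh : ∀ x ∈ B, ∀ z, AnalyticAt ℂ (Theta g) (ψ x, z) := fun x hx z =>
    Theta_analytic (Siegel_sub (hτB x hx)) z
  have hF₀ : ∀ x ∈ B, ∀ z, AnalyticAt ℂ F₀ (x, z) := fun x hx z =>
    AnalyticAt.comp (g := Theta g) (hTh x hx z) (hΨ x hx z)
  let F : List (Fin g) → (Fin d → ℂ) × EE g → ℂ := fun L =>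
    dd (L.map fun i => ((0 : Fin d → ℂ), ee i)) F₀
  let QL : List (Fin g) → (Fin d → ℂ) × EE g → Mat g := fun L p i j => F (i :: j :: L) p
  have hQL : ∀ L, ∀ x ∈ B, ∀ z, AnalyticAt ℂ (QL L) (x, z) := fun L x hx z =>
    analyticAt_pi_iff.2 fun i => analyticAt_pi_iff.2 fun j => analyticAt_dd (hF₀ x hx z) _
  let Φ : ∀ n, (Fin n → List (Fin g)) → (Fin n → ℂ) × ((Fin d → ℂ) × EE g) →
      (Fin d → ℂ) × Mat g := fun n L q => (q.2.1, β (q.2.1, ∑ l, q.1 l • QL (L l) q.2))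
  have hΦ : ∀ n L l, ∀ x ∈ B, ∀ z, AnalyticAt ℂ (Φ n L) (l, (x, z)) := by
    intro n L l x hx z
    have h1 : AnalyticAt ℂ (fun q : (Fin n → ℂ) × ((Fin d → ℂ) × EE g) => q.2.1) (l, (x, z)) :=
      analyticAt_fst.comp analyticAt_snd
    have h2 : AnalyticAt ℂ (fun q : (Fin n → ℂ) × ((Fin d → ℂ) × EE g) =>
        ∑ l, q.1 l • QL (L l) q.2) (l, (x, z)) :=
      Finset.analyticAt_fun_sum _ fun a _ => AnalyticAt.fun_smul
        (analyticAt_pi_iff.1 (analyticAt_fst (p := (l, (x, z)))) a)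
        (AnalyticAt.comp (g := QL (L a)) (f := Prod.snd) (x := (l, (x, z))) (hQL _ x hx z)
          analyticAt_snd)
    exact h1.prod (AnalyticAt.comp (g := β) (hβ _ ⟨hx, trivial⟩) (h1.prod h2))
  have hfΦ : ∀ f ∈ R, ∀ n L l, ∀ x ∈ B, ∀ z, AnalyticAt ℂ (fun q => f (Φ n L q)) (l, (x, z)) :=
    fun f hf n L l x hx z => AnalyticAt.comp (g := f) (hR f hf _ ⟨hx, trivial⟩) (hΦ n L l x hx z)
  have hRc : Countable R := hc.to_subtype
  let Gf : R × (Σ n : ℕ, (Fin n → List (Fin g)) × (Fin n → ℚ)) → (Fin d → ℂ) × EE g → ℂ :=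
    fun t p => t.1.1 (Φ t.2.1 t.2.2.1 (fun i => (t.2.2.2 i : ℂ), p))
  let b := (Pi.basisFun ℂ (Fin d)).prod (Pi.basisFun ℂ (Fin g))
  obtain ⟨R', hR', hFR, -, hRc'⟩ := exists_DRing (S := insert F₀ (Set.range Gf))
    (DRing_all b (B ×ˢ Set.univ)) (by
      rintro _ (rfl | ⟨t, rfl⟩) p hp
      · exact hF₀ p.1 hp.1 p.2
      · exact AnalyticAt.comp (g := fun q => t.1.1 (Φ t.2.1 t.2.2.1 q))
          (f := fun p => (fun i => (t.2.2.2 i : ℂ), p))
          (hfΦ _ t.1.2 _ _ _ p.1 hp.1 p.2) (analyticAt_const.prod analyticAt_id))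
    ((Set.countable_range Gf).insert _)
  have hF : ∀ L, F L ∈ R' := by
    intro L
    induction L with
    | nil => exact hFR (Set.mem_insert _ _)
    | cons i L ih =>
      have h1 := hR'.dv _ ih (Sum.inr i)
      have h2 : b (Sum.inr i) = (0, ee i) := by simp [b]
      rwa [h2] at h1
  have hGf : ∀ f ∈ R, ∀ n L (r : Fin n → ℚ), (fun p => f (Φ n L (fun i => (r i : ℂ), p))) ∈ R' :=
    fun f hf n L r => hFR (Set.mem_insert_of_mem _ ⟨(⟨f, hf⟩, ⟨n, L, r⟩), rfl⟩)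
  have hFv : ∀ x ∈ B, ∀ z L, F L (x, z) = dI L (theta (ψ x)) z := fun x hx z L =>
    dd_slice (hF₀ x hx z) L
  obtain ⟨x, ⟨hx, hxG⟩, γ, hγ, hγi, hγS, hsel, hlift⟩ := xsfama_sel (k := k) hB ⟨x₁, hx₁⟩ b
    hR' hRc' {p | p.2 ∈ S (ψ p.1)} (fun x hx => by
      obtain ⟨z, γ, -, h1, h2, h3⟩ := (hAM x hx).2
      exact ⟨γ, h1, h2, h3⟩) hG
  have hτ := hτB x hx
  have hsx : IsSimple (ψ x) := hδs _ hτ fun f hf => hxG hx _ ⟨f, hf, rfl⟩
  have han := theta_analytic (Siegel_sub hτ)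
  have hv : ∀ L' : List (Fin g), dI L' (theta (ψ x)) (γ 0) = 0 →
      ∀ᶠ s in 𝓝 0, dI L' (theta (ψ x)) (γ s) = 0 := fun L' hL' =>
    (hsel _ (hF L') (by rw [hFv x hx, hL'])).mono fun s h => by rw [← hFv x hx, h]
  obtain ⟨n, r, μ, L, hcn, hn, hL, hmin, hind, hrk⟩ := hS _ hτ (γ 0) hγS γ hγ hγi rfl hv
  have hv' : ∀ᶠ s in 𝓝 0, ∀ L' : List (Fin g), L'.length ≤ μ + 1 →
      dI L' (theta (ψ x)) (γ s) = 0 :=
    (eventually_all_finite (List.finite_length_le (Fin g) (μ + 1))).2 fun L' hL' =>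
      hv L' (hmin L' hL')
  let Q : Fin n → (Fin k → ℂ) → Mat g := fun l s => pol (ψ x) (γ s) (L l)
  have hQ : ∀ l s, QL (L l) (x, γ s) = Q l s := fun l s =>
    funext fun i => funext fun j => hFv x hx _ _
  have hQa : ∀ l s, AnalyticAt ℂ γ s → AnalyticAt ℂ (Q l) s := fun l s hs =>
    analyticAt_pi_iff.2 fun i => analyticAt_pi_iff.2 fun j => (analyticAt_dI (han _) _).comp hs
  obtain ⟨T, hTi, hT⟩ := hβl x hx
  have hΦv : ∀ a s, Φ n L (a, (x, γ s)) = (x, T (∑ l, a l • Q l s)) := fun a s => by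
    simp only [Φ, hQ, hT]
  have hent : ∀ f ∈ R, ∀ (A : Fin n → Mat g) (a : Fin n → ℂ),
      AnalyticAt ℂ (fun a : Fin n → ℂ => f (x, T (∑ l, a l • A l))) a := fun f hf A a =>
    AnalyticAt.comp (g := f) (f := fun a : Fin n → ℂ => (x, T (∑ l, a l • A l)))
      (hR f hf _ ⟨hx, trivial⟩) (analyticAt_const.prod ((T.analyticAt _).comp
        (Finset.analyticAt_fun_sum _ fun l _ =>
          AnalyticAt.fun_smul (analyticAt_pi_iff.1 (analyticAt_id (z := a)) l) analyticAt_const)))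
  have hpr : ∀ a : Fin n → ℂ, AnalyticAt ℂ (fun a : Fin n → ℂ => a ⟨0, hn⟩) a := fun a =>
    analyticAt_pi_iff.1 analyticAt_id _
  obtain ⟨l₀, -, hl₀⟩ := generic_point (X := Fin n → ℂ)
    (R := insert (fun a => a ⟨0, hn⟩)
      ((fun f (a : Fin n → ℂ) => f (x, T (∑ l, a l • Q l 0))) '' R)) ((hc.image _).insert _)
    (x₀ := 0) (U := Set.univ) univ_mem (by
      rintro _ (rfl | ⟨f, hf, rfl⟩) l -
      · exact hpr l
      · exact hent f hf _ l)
  have hl0 : l₀ ≠ 0 := fun h => one_ne_zero (congrFun (entire_zero hpr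
    (hl₀ _ (Set.mem_insert _ _) (congrFun h _))) (fun _ => (1 : ℂ)))
  have hall : ∀ f ∈ R, f (x, β (x, ∑ l, l₀ l • Q l 0)) = 0 →
      ∀ r : Fin n → ℚ, f (Φ n L (fun i => (r i : ℂ), (x, γ 0))) = 0 := by
    intro f hf h0 r
    rw [hΦv]
    rw [hT] at h0
    exact congrFun (entire_zero (hent f hf fun l => Q l 0)
      (hl₀ _ (Set.mem_insert_of_mem _ ⟨f, hf, rfl⟩) h0)) _
  have hNa : ∀ p : (Fin k → ℂ) × (Fin n → ℂ), AnalyticAt ℂ γ p.1 →
      AnalyticAt ℂ (fun p : (Fin k → ℂ) × (Fin n → ℂ) => ∑ l, (l₀ + p.2) l • Q l p.1) p :=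
    fun p hp => Finset.analyticAt_fun_sum _ fun l _ =>
      (analyticAt_pi_iff.1 (analyticAt_const.add analyticAt_snd) l).smul
        (AnalyticAt.comp (g := Q l) (hQa l _ hp) analyticAt_fst)
  refine ⟨x, hx, ∑ l, l₀ l • Q l 0, n, r, hcn, ?_, ?_, hrk l₀, ?_, ?_,
    fun s => T (∑ l, (l₀ + s.2) l • Q l s.1), ?_, ?_, ?_, ?_⟩
  · exact fun h => hl0 (funext (Fintype.linearIndependent_iff.1 hind l₀ h))
  · intro i j
    have : ∀ l, Q l 0 i j = Q l 0 j i := fun l => dv_comm (analyticAt_dI (han _) (L l)) _ _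
    simp only [Finset.sum_apply, Pi.smul_apply, this]
  · intro ξ
    obtain ⟨ζ, hζ⟩ := hlift ξ
    have h1 := fun l => xsfama_heat (hψ x hx) hτ (γ 0) (L l) ξ ζ
      (hζ _ (hF (L l)) ((hFv x hx _ (L l)).trans (hmin _ (by simp [hL]))))
      (fun i => (hFv x hx _ (i :: L l)).trans (hmin _ (by simp [hL])))
    have h2 : ∑ i, ∑ j, fderiv ℂ ψ x ξ i j * (∑ l, l₀ l • Q l 0) i j =
        ∑ l, l₀ l * ∑ i, ∑ j,
          fderiv ℂ ψ x ξ i j * dI (i :: j :: L l) (theta (ψ x)) (γ 0) := by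
      simp only [Finset.mul_sum, Finset.sum_apply, Pi.smul_apply, smul_eq_mul]
      rw [Finset.sum_comm (s := Finset.univ (α := Fin n))]
      refine Finset.sum_congr rfl fun i _ => ?_
      rw [Finset.sum_comm (s := Finset.univ (α := Fin n))]
      refine Finset.sum_congr rfl fun j _ => Finset.sum_congr rfl fun l _ => ?_
      simp only [Q, pol]
      ring
    rw [h2]
    exact Finset.sum_eq_zero fun l _ => by rw [h1 l, mul_zero]
  · intro ξ
    obtain ⟨ζ, hζ⟩ := hlift ξ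
    have hd : DifferentiableAt ℂ (fun p => Φ n L (l₀, p)) (x, γ 0) :=
      (AnalyticAt.comp (g := Φ n L) (f := fun p => (l₀, p)) (hΦ n L l₀ x hx (γ 0))
        (analyticAt_const.prod analyticAt_id)).differentiableAt
    have h1 : (fderiv ℂ (fun p => Φ n L (l₀, p)) (x, γ 0) (ξ, ζ)).1 = ξ := by
      have h2 := (hasFDerivAt_fst (𝕜 := ℂ) (p := Φ n L (l₀, (x, γ 0)))).comp (x, γ 0)
        hd.hasFDerivAt
      have h3 := h2.unique (hasFDerivAt_fst (𝕜 := ℂ) (p := (x, γ 0)))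
      exact congrArg (fun A => A (ξ, ζ)) h3
    refine ⟨(fderiv ℂ (fun p => Φ n L (l₀, p)) (x, γ 0) (ξ, ζ)).2, fun f hf h0 => ?_⟩
    have h4 := xh_par (H := fun q => f (Φ n L q)) (p := (x, γ 0)) (v := (ξ, ζ))
      (fun l => hfΦ f hf n L l x hx _) (fun r => hζ _ (hGf f hf n L r) (hall f hf h0 r)) l₀
    have h5 : Φ n L (l₀, (x, γ 0)) = (x, β (x, ∑ l, l₀ l • Q l 0)) := by rw [hΦv, hT]
    have h6 : DifferentiableAt ℂ f (Φ n L (l₀, (x, γ 0))) :=
      (hR f hf _ ⟨hx, trivial⟩).differentiableAt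
    have h7 := (h6.hasFDerivAt.comp (x, γ 0) hd.hasFDerivAt).fderiv
    have h8 : fderiv ℂ f (Φ n L (l₀, (x, γ 0)))
        (fderiv ℂ (fun p => Φ n L (l₀, p)) (x, γ 0) (ξ, ζ)) = 0 := by
      rw [← h4]
      exact (congrArg (fun A => A (ξ, ζ)) h7).symm
    rw [h5] at h8
    rw [← h8]
    congr 1
    exact Prod.ext h1.symm rfl
  · exact (T.analyticAt _).comp (hNa 0 hγ)
  · simp only [Prod.snd_zero, Prod.fst_zero, add_zero, hT]
  · have h1 := linG hτ hsx hγ hγi L hL hv' (Q := Q) (fun _ _ _ _ => rfl) hind hl0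
    refine (h1.and_eventually (hNa 0 hγ).eventually_analyticAt).mono fun p hp => ?_
    have h2 := (T.hasFDerivAt.comp p hp.2.differentiableAt.hasFDerivAt).fderiv
    have h3 : fderiv ℂ (fun s : (Fin k → ℂ) × (Fin n → ℂ) =>
        T (∑ l, (l₀ + s.2) l • Q l s.1)) p = _ := h2
    rw [h3]
    exact hTi.comp hp.1
  · intro f hf h0
    obtain ⟨ε, hε, hball⟩ := Metric.eventually_nhds_iff_ball.1 hγ.eventually_analyticAt
    have h1 : ∀ r : Fin n → ℚ, ∀ s ∈ Metric.ball (0 : Fin k → ℂ) ε,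
        f (x, T (∑ l, (r l : ℂ) • Q l s)) = 0 := by
      intro r
      have hA : AnalyticOnNhd ℂ (fun s => f (x, T (∑ l, (r l : ℂ) • Q l s))) (Metric.ball 0 ε) :=
        fun s hs => AnalyticAt.comp (g := f) (f := fun s => (x, T (∑ l, (r l : ℂ) • Q l s)))
          (hR f hf _ ⟨hx, trivial⟩) (analyticAt_const.prod ((T.analyticAt _).comp
            (Finset.analyticAt_fun_sum _ fun l _ =>
              AnalyticAt.const_smul (c := (r l : ℂ)) (hQa l s (hball s hs)))))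
      refine hA.eqOn_zero_of_preconnected_of_eventuallyEq_zero (convex_ball _ _).isPreconnected
        (Metric.mem_ball_self hε) ?_
      filter_upwards [hsel _ (hGf f hf n L r) (hall f hf h0 r)] with s hs
      rw [hΦv] at hs
      exact hs
    have h2 : ∀ᶠ s : (Fin k → ℂ) × (Fin n → ℂ) in 𝓝 0, s.1 ∈ Metric.ball (0 : Fin k → ℂ) ε :=
      continuous_fst.continuousAt.eventually (Metric.ball_mem_nhds _ hε)
    filter_upwards [h2] with s hs
    exact congrFun (entire_zero_of_rat (hent f hf fun l => Q l s.1) fun r => h1 r _ hs) _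

/-- a Nash family of conormal quadrics of corank at least `r` with `m` parameters -/
theorem famH {d g k c : ℕ} {B : Set (Fin d → ℂ)} (hB : IsOpen B) (hBc : IsPreconnected B)
    {ψ : (Fin d → ℂ) → Mat g} (hψ : AnalyticOnNhd ℂ ψ B) {S : Mat g → Set (EE g)}
    (hAM : ∀ x ∈ B, ψ x ∈ Siegel g ∧ ∃ z, DimGE (S (ψ x)) z k)
    (hS : ∀ τ ∈ Siegel g, ∀ z ∈ S τ, PolData τ z k c)
    {x₁ : Fin d → ℂ} (hx₁ : x₁ ∈ B) (hs : IsSimple (ψ x₁))
    {V : (Fin d → ℂ) → Matrix (Fin g) (Fin g) ℂ}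
    (hV : ∀ a b, AnalyticOnNhd ℂ (fun x => V x a b) B) (hdet : ∀ x ∈ B, (V x).det ≠ 0)
    (hN : ∀ x ∈ B, ∀ ξ a b,
      NashAt (fun x' => ((V x')ᵀ * Matrix.of (fderiv ℂ ψ x' ξ) * V x') a b) x) :
    ∃ (m r : ℕ) (p : (Fin d → ℂ) × (Fin m → ℂ))
      (q : (Fin d → ℂ) × (Fin m → ℂ) → Matrix (Fin g) (Fin g) ℂ), c ≤ m + r * (r + 1) / 2 ∧
      r ≤ g ∧ p.1 ∈ B ∧ (∀ a b, NashAt (fun e => q e a b) p) ∧ q p ≠ 0 ∧
      ∀ᶠ e in 𝓝 p, (q e)ᵀ = q e ∧
        (∀ ξ, trace (V e.1 * q e * (V e.1)ᵀ * Matrix.of (fderiv ℂ ψ e.1 ξ)) = 0) ∧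
        (∀ a b : Fin (g - r + 1) → Fin g, ((q e).submatrix a b).det = 0) ∧
        ∀ ζ : Fin m → ℂ, dM q e (0, ζ) = 0 → ζ = 0 := by
  obtain ⟨R, hR, hFR, hRN, hRc⟩ := exists_DRing (S := ⋃ n, Set.range (xsfamF n ψ V))
    (nash_DRing (Module.finBasis ℂ ((Fin d → ℂ) × Mat g)) (B ×ˢ Set.univ))
    (by
      refine Set.iUnion_subset fun n => ?_
      rintro _ ⟨i, rfl⟩ p hp
      exact xsfam_nash _ (hN p.1 hp.1) i) (Set.countable_iUnion fun _ => Set.countable_range _)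
  obtain ⟨x, hx, Q, n, r, hcn, hQ0, hQ, hr, hc, ha, ν, hν, h0, hi, hv⟩ := famG hB hBc hψ hAM hS
    hx₁ hs (β := xsfamB V) (fun p hp => xsfam_an (fun a b => hV a b p.1 hp.1) (hdet p.1 hp.1))
    (fun x hx => xsfam_lin (hdet x hx)) hR.an hRc
  obtain ⟨m, l, μ, hm, hμ, hμN, hμ0, hl, hz⟩ := famB (Module.finBasis ℂ ((Fin d → ℂ) × Mat g)) hR
    (fun f hf => hRN hf) hx ha hν h0 hi hv
  rw [Module.finrank_prod, Module.finrank_fin_fun, Module.finrank_fin_fun] at hm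
  refine ⟨m, r, (x, l (x, xsfamB V (x, Q))), fun e => Matrix.of (μ e), by omega, by omega, hx,
    fun a b => hμN (xsfamE a b), fun e => hQ0 ?_, ?_⟩
  · apply Matrix.of.injective
    rw [← xsfam_back (hdet x hx) Q, ← hμ0]
    have e' : Matrix.of (μ (x, l (x, xsfamB V (x, Q)))) = 0 := e
    rw [e', Matrix.mul_zero, Matrix.zero_mul]
    rfl
  · have h1 := eventually_all.2 fun i =>
      hz _ (hFR (Set.mem_iUnion.2 ⟨g - r + 1, i, rfl⟩)) (xsfam_van (hdet x hx) hQ hr hc i)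
    filter_upwards [h1, hμ.eventually_analyticAt, hl.eventually_nhds] with e he h2 h3
    refine ⟨?_, fun ξ => xsfam_xi _ _ (fun i => ?_) ξ, fun r c => he (.inr (.inr (r, c))),
      xsfam_inj h2 h3⟩
    · ext a b
      exact sub_eq_zero.1 (he (.inl (b, a)))
    · exact (xsfam_tr (V e.1) (Matrix.of (μ e)) _).symm.trans (he (.inr (.inl i)))

/-- a double point has one polar quadric -/
theorem polData_double {g k r c : ℕ} {τ : Mat g} {z : EE g} (hz : z ∈ singTheta τ)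
    (h0 : pol τ z [] ≠ 0) (hr : (Matrix.of (pol τ z [])).rank + r ≤ g)
    (hc : c ≤ k + 1 + r * (r + 1) / 2) : PolData τ z k c := by
  intro γ _ _ _ _
  refine ⟨1, r, 0, fun _ => [], hc, one_pos, fun _ => rfl, fun L hL => ?_, ?_, fun a => ?_⟩
  · obtain _ | ⟨i, _ | ⟨j, L⟩⟩ := L
    · exact hz.1
    · simp [dv_apply, hz.2]
    · simp at hL
  · exact linearIndependent_unique_iff.2 h0
  · rw [Fin.sum_univ_one]
    have h1 : Matrix.of (a 0 • pol τ z []) = (a 0 • (1 : Matrix (Fin g) (Fin g) ℂ)) *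
        Matrix.of (pol τ z []) := by
      rw [Matrix.smul_mul, Matrix.one_mul]
      rfl
    rw [h1]
    exact (Nat.add_le_add_right (rank_mul_le_right _ _) r).trans hr

lemma xh_arith {g k n r : ℕ} (h1 : n + r = g) (h2 : k ≤ r) :
    g + k * (k + 1) / 2 ≤ k + n + r * (r + 1) / 2 := by
  obtain ⟨j, rfl⟩ := Nat.exists_eq_add_of_le h2
  have h3 : k * (k + 1) + j * 2 ≤ (k + j) * (k + j + 1) := by
    rcases j with _ | j
    · simp
    · nlinarith
  have h4 := Nat.div_le_div_right (c := 2) h3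
  rw [Nat.add_mul_div_right _ _ two_pos] at h4
  omega

/-- the polar quadrics of a cubic -/
theorem polData_triple {g k c : ℕ} {τ : Mat g} (hτ : τ ∈ Siegel g) {z : EE g}
    (hz : z ∈ singTheta τ) (h0 : pol τ z [] = 0) (hc : c ≤ g + k * (k + 1) / 2) :
    PolData τ z k c := by
  classical
  rintro γ hγ hγi rfl hv
  have han := theta_analytic (Siegel_sub hτ)
  obtain ⟨i₀, j₀, L, hne, hmin⟩ := xsfama_min hτ hz
  obtain _ | ⟨l₀, L⟩ := L
  · exact absurd (congrFun (congrFun h0 i₀) j₀) hne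
  let P : Fin g → Mat g := fun l => pol τ (γ 0) (l :: L)
  have hs1 : ∀ l i j, P l i j = P l j i := fun l i j => dv_comm (analyticAt_dI (han _) _) _ _
  have hs2 : ∀ l i j, P l i j = P j i l := fun l i j => by
    have : dI (j :: l :: L) (theta τ) = dI (l :: j :: L) (theta τ) :=
      funext fun y => dv_comm (analyticAt_dI (han y) L) _ _
    simp only [P, pol]
    rw [dI_cons i, this, ← dI_cons]
  obtain ⟨κ, a, ha, hsp, hli⟩ := exists_linearIndependent' ℂ P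
  have : Finite κ := Finite.of_injective a ha
  obtain ⟨n, ⟨e⟩⟩ := Finite.exists_equiv_fin κ
  let A : EE g →ₗ[ℂ] Mat g := Fintype.linearCombination ℂ P
  have hA : ∀ v, A v = ∑ l, v l • P l := fun v => rfl
  have hli' : LinearIndependent ℂ fun l : Fin n => P (a (e.symm l)) := hli.comp _ e.symm.injective
  have hrg : Module.finrank ℂ (LinearMap.range A) = n := by
    rw [Fintype.range_linearCombination, ← hsp]
    have h1 : Set.range (P ∘ a) = Set.range fun l : Fin n => P (a (e.symm l)) :=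
      (e.symm.surjective.range_comp (P ∘ a)).symm
    rw [h1, finrank_span_eq_card hli', Fintype.card_fin]
  have hrn := LinearMap.finrank_range_add_finrank_ker A
  rw [hrg, Module.finrank_fin_fun] at hrn
  have hker : ∀ v, A v = 0 ↔ ∀ l, mv (P l) v = 0 := fun v => by
    have h1 : ∀ l i, A v i l = mv (P l) v i := fun l i => by
      rw [hA]
      simp only [Finset.sum_apply, Pi.smul_apply, smul_eq_mul, mv]
      exact Finset.sum_congr rfl fun j _ => by rw [hs2 l i j, mul_comm]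
    exact ⟨fun h l => funext fun i => (h1 l i).symm.trans (congrFun (congrFun h i) l),
      fun h => funext fun i => funext fun l => (h1 l i).trans (congrFun (h l) i)⟩
  have hk : k ≤ Module.finrank ℂ (LinearMap.ker A) := by
    have h2 : LinearMap.range (fderiv ℂ γ 0).toLinearMap ≤ LinearMap.ker A := by
      rintro _ ⟨w, rfl⟩
      exact (hker _).2 fun l => xsfama_ker hτ hγ (l :: L)
        (fun j => hv _ (hmin _ (by simp))) w
    have h3 := Submodule.finrank_mono h2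
    rwa [LinearMap.finrank_range_of_inj hγi, Module.finrank_fin_fun] at h3
  have hn : 0 < n := by
    rw [← hrg]
    refine Module.finrank_pos_iff_exists_ne_zero.2 ⟨⟨A (Pi.single l₀ 1), _, rfl⟩, fun h => hne ?_⟩
    have h1 : A (Pi.single l₀ 1) = 0 := congrArg Subtype.val h
    rw [Fintype.linearCombination_apply_single, one_smul] at h1
    exact congrFun (congrFun h1 i₀) j₀
  refine ⟨n, Module.finrank ℂ (LinearMap.ker A), L.length + 1, fun l => a (e.symm l) :: L,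
    hc.trans (xh_arith hrn hk), hn, fun _ => rfl, fun L' hL' => hmin L' (by simpa using hL'),
    hli', fun b => ?_⟩
  have h1 := LinearMap.finrank_range_add_finrank_ker
    (Matrix.of (∑ l, b l • pol τ (γ 0) (a (e.symm l) :: L))).mulVecLin
  have h2 : LinearMap.ker A ≤ LinearMap.ker
      (Matrix.of (∑ l, b l • pol τ (γ 0) (a (e.symm l) :: L))).mulVecLin := fun v hv' => by
    have h3 := (hker v).1 hv'
    change xlinT v (∑ l, b l • P (a (e.symm l))) = 0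
    simp only [map_sum, map_smul, xlinT_apply, h3, smul_zero, Finset.sum_const_zero]
  have h3 := Submodule.finrank_mono h2
  rw [Module.finrank_fin_fun] at h1
  exact (Nat.add_le_add_left h3 _).trans h1.le

end Pool.Agent.MP_f58063_ag
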