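import Pool.Agent.Mg.Fcf0a82q.G2bf017
import Pool.Agent.MP_f58063_ag.H.Fam

/-! The codimension bound for Nash germs with big monodromy. -/

open Complex Filter Topology Matrix Function

noncomputable section

namespace Pool.Agent.MP_cf0a82_ag

open Pool.Agent.MP_f58063_ag

lemma xh_core {g k c d N : ℕ} {W : Mat g → Set (EE g)}
    (hW : ∀ τ ∈ Siegel g, ∀ z ∈ W τ, PolData τ z k c) {S : Set (Mat g)} (hS : IsMfd S d) (hSS : S ⊆ Siegel g)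
    (hM : BigMon S) {c₀ : LL g → ℂ} {cs : Fin g → LL g → ℂ} {ch : Fin d → LL g → ℂ}
    (hN : N ≠ 0) (hc0 : IsCh N c₀) (hcs : ∀ i, IsCh N (cs i)) (hch : ∀ j, IsCh N (ch j))
    {ψ : (Fin d → ℂ) → Mat g} {x₀ : Fin d → ℂ} {r : ℝ} (hr : 0 < r)
    (hψ : AnalyticOnNhd ℂ ψ (Metric.ball x₀ r)) (hcov : 𝓝[S] (ψ x₀) ≤ map ψ (𝓝 x₀))
    (hB : ∀ x ∈ Metric.ball x₀ r, ψ x ∈ S ∧ ψ x ∈ Om c₀ cs ∧ (∀ i, yq c₀ (ch i) (ψ x) = x i) ∧
      Injective (fderiv ℂ ψ x) ∧ ∃ z, DimGE (W (ψ x)) z k) (hs0 : IsSimple (ψ x₀))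
    (hNF0 : ∀ x ∈ Metric.ball x₀ r, ∀ ξ : Fin d → ℂ,
      (∀ a b, NashAt (fun x' => ((Vf c₀ cs (ψ x'))ᵀ * Matrix.of (fderiv ℂ ψ x' ξ) *
        Vf c₀ cs (ψ x')) a b) x) ∧
      ∀ a b, NashAt (fun x' => ((Pf c₀ cs (ψ x'))⁻¹ *
        dM (fun x'' => Pf c₀ cs (ψ x'')) x' ξ) a b) x)
    (hNy : ∀ x ∈ Metric.ball x₀ r, ∀ ε : LL g → Fin 2,
      NashAt (fun x' => yq c₀ (hc ε) (ψ x')) x) :
    d + c ≤ g * (g + 1) / 2 := by
  classical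
  by_contra hcon
  have hΩ := isOpen_Om c₀ cs
  have hP := Om_sub c₀ cs
  have hΓ : (Gam g (2 * N ^ 2)).FiniteIndex := Gam_finiteIndex g (by positivity)
  have hst : ∀ γ ∈ Gam g (2 * N ^ 2), ∀ τ ∈ Siegel g ∩ Om c₀ cs, act γ τ ∈ Om c₀ cs :=
    fun γ hγ τ hτ => (jet_act hN hγ hτ.1 hc0 hcs hτ.2).1
  set U := Metric.ball x₀ r with hBdef
  have hBo : IsOpen U := Metric.isOpen_ball
  have hev : ∀ x ∈ U, ∀ᶠ x' in 𝓝 x, x' ∈ U := fun x hx => hBo.mem_nhds hx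
  have hcomp : ∀ {f : Mat g → ℂ}, Mer (Om c₀ cs) f → ∀ x ∈ U, AnalyticAt ℂ (fun x => f (ψ x)) x :=
    fun hf x hx => AnalyticAt.comp (hf.analyticAt hΩ hP (hB x hx).2.1) (hψ x hx)
  have hNF : ∀ x ∈ Metric.ball x₀ r, ∀ ξ : Fin d → ℂ,
      (∀ a b, NashAt (fun x' => ((Vf c₀ cs (ψ x'))ᵀ * Matrix.of (fderiv ℂ ψ x' ξ) *
        Vf c₀ cs (ψ x')) a b) x) ∧
      ∀ a b, NashAt (fun x' => ((Pf c₀ cs (ψ x'))⁻¹ *
        dM (fun x'' => Pf c₀ cs (ψ x'')) x' ξ) a b) x := hNF0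
  obtain ⟨m, ρ, p, q, hm, hk, hp, hq, hq0, hfam⟩ := famH (V := fun x => Vf c₀ cs (ψ x)) hBo
    (convex_ball x₀ r).isPreconnected hψ (fun x hx => ⟨hSS (hB x hx).1, (hB x hx).2.2.2.2⟩) hW
    (Metric.mem_ball_self hr) hs0 (fun a b => hcomp (Mer_Vf c₀ cs a b))
    (fun x hx => (hB x hx).2.1.2.2) fun x hx ξ => (hNF x hx ξ).1
  let b := (Pi.basisFun ℂ (Fin d)).prod (Pi.basisFun ℂ (Fin m))
  have hb : ∀ z : (Fin d → ℂ) × (Fin m → ℂ), (fun i => b.repr z i) = Sum.elim z.1 z.2 := by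
    intro z
    funext i
    rcases i with i | i <;> simp [b]
  have hevp : ∀ᶠ z in 𝓝 p, z.1 ∈ U := continuous_fst.continuousAt.eventually (hev _ hp)
  have hent : ∀ x ∈ U, ∀ a c, AnalyticAt ℂ (fun x => Matrix.of (ψ x) a c) x :=
    fun x hx a c => hcomp (Mer.entry a c) x hx
  have hfst : ∀ {f : (Fin d → ℂ) → ℂ} {z : (Fin d → ℂ) × (Fin m → ℂ)}, AnalyticAt ℂ f z.1 →
      AnalyticAt ℂ (fun w : (Fin d → ℂ) × (Fin m → ℂ) => f w.1) z :=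
    fun hf => AnalyticAt.comp hf analyticAt_fst
  obtain ⟨σ, t₀, u, hσ0, hσ, hu, hτψ, hy⟩ := stage_curve (k := ρ) (s := g - ρ) b p
    (fun z => Matrix.of (ψ z.1)) (fun z => ψf c₀ (ψ z.1)) (fun z => Vf c₀ cs (ψ z.1)) q
    (fun z => Pf c₀ cs (ψ z.1)) (fun _ => rfl) (fun a c => hfst (hent _ hp a c))
    (fun a c => hfst (hcomp (Mer_ψf c₀ cs a c) _ hp))
    (fun a c => hfst (hcomp (Mer_Vf c₀ cs a c) _ hp)) hq (hB _ hp).2.1.2.2 hq0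
    (by
      filter_upwards [hevp, hfam] with z hz h1
      refine ⟨?_, ψf_symm c₀ (hP (hB _ hz).2.1), h1.1⟩
      ext a c
      exact (hSS (hB _ hz).1).1 c a)
    (fun i a c => by
      refine ((hNF _ hp (b i).1).2 a c).comp_fst.congr ?_
      filter_upwards [hevp] with z hz
      rw [xsm_dM_fst (A := fun x => Pf c₀ cs (ψ x)) fun a c => hcomp (Mer_Pf c₀ cs a c) _ hz])
    (fun R hR => by
      simp only [hb] at hR ⊢
      exact zar hS hSS hM hΓ hΩ hP hst (y := fun i => yq c₀ (ch i))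
        (fun i => Mod_yq hN hc0 hcs (hch _)) (Mer_Pf c₀ cs)
        (fun γ hγ τ hτ => (jet_act hN hγ hτ.1 hc0 hcs hτ.2).2.2.2) hψ hcov
        (fun x hx => ⟨(hB x hx).1, (hB x hx).2.1, (hB x hx).2.2.1⟩) hp R hR)
    (by
      filter_upwards [hevp, hfam] with z hz h1 ξ
      rw [xsm_dM_fst (A := fun x => Matrix.of (ψ x)) (hent _ hz), xsm_dM_of (hψ _ hz)]
      exact h1.2.1 _)
    (by
      have hqa : ∀ᶠ z in 𝓝 p, ∀ a c, AnalyticAt ℂ (fun e => q e a c) z :=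
        eventually_all.2 fun a => eventually_all.2 fun c => (hq a c).1.eventually_analyticAt
      filter_upwards [hevp, hfam, hqa] with z hz h1 h2 ξ h3 h4
      rw [xsm_dM_fst (A := fun x => Matrix.of (ψ x)) (hent _ hz), xsm_dM_of (hψ _ hz)] at h3
      have h5 : ξ.1 = 0 := (hB _ hz).2.2.2.1 (by rw [map_zero]; exact h3)
      have hV : ∀ a c, AnalyticAt ℂ
          (fun w : (Fin d → ℂ) × (Fin m → ℂ) => Vf c₀ cs (ψ w.1) a c) z :=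
        fun a c => hfst (hcomp (Mer_Vf c₀ cs a c) _ hz)
      have h6 : dM (fun w : (Fin d → ℂ) × (Fin m → ℂ) => Vf c₀ cs (ψ w.1)) z ξ = 0 := by
        rw [xsm_dM_fst (A := fun x => Vf c₀ cs (ψ x)) fun a c => hcomp (Mer_Vf c₀ cs a c) _ hz,
          h5, xsm_dM_zero]
      have h7 : dM (fun w : (Fin d → ℂ) × (Fin m → ℂ) => (Vf c₀ cs (ψ w.1))ᵀ) z ξ = 0 :=
        congrArg transpose h6
      rw [dM_mul (A := fun w => Vf c₀ cs (ψ w.1) * q w) (B := fun w => (Vf c₀ cs (ψ w.1))ᵀ)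
          (an_mul hV h2) (fun a c => hV c a),
        dM_mul hV h2, h6, h7, Matrix.zero_mul, zero_add, Matrix.mul_zero, add_zero] at h4
      have hu : IsUnit (Vf c₀ cs (ψ z.1)).det := (hB _ hz).2.1.2.2.isUnit
      have h8 : dM q z ξ = 0 := by
        have := congrArg (fun A => (Vf c₀ cs (ψ z.1))⁻¹ * A * ((Vf c₀ cs (ψ z.1))ᵀ)⁻¹) h4
        have hu' : IsUnit ((Vf c₀ cs (ψ z.1))ᵀ).det := by rwa [det_transpose]
        simpa [Matrix.mul_assoc, Matrix.mul_nonsing_inv _ hu',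
          Matrix.nonsing_inv_mul_cancel_left _ _ hu] using this
      have h9 : ξ = (0, ξ.2) := Prod.ext h5 rfl
      rw [h9] at h8 ⊢
      rw [h1.2.2.2 _ h8]
      rfl)
    (by omega) (hfam.mono fun z h1 => h1.2.2.1)
    (by
      simp only [Fintype.card_sum, Fintype.card_fin]
      omega)
    (f := fun (ε : LL g → Fin 2) z => yq c₀ (hc ε) (ψ z.1))
    (fun ε => (hNy _ hp ε).comp_fst) hevp
  have hσB : ∀ᶠ t in 𝓝 t₀, (σ t).1 ∈ U :=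
    hσ.continuousAt.eventually (mem_interior_iff_mem_nhds.1 hσ0)
  exact no_frame_curve (c₀ := c₀) (τ := fun t => ψ (σ t).1) (u := u) (fun a c => (hτψ a c).1)
    ((hσB.and hu).mono fun t h => ⟨hSS (hB _ h.1).1, h.2⟩) (hB _ hσB.self_of_nhds).2.1.2.1
    (fun a c => (hτψ a c).2) hy

/-- the sharp bound for Nash germs with big monodromy -/
theorem sharpH {g k c d : ℕ} {W : Mat g → Set (EE g)}
    (hW : ∀ τ ∈ Siegel g, ∀ z ∈ W τ, PolData τ z k c) (hg : 0 < g) (B : Box g) {e : Fin d → Fin (NN g)}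
    {χ : (Fin d → ℂ) → DD g} {u₁ : Fin d → ℂ} (hχ : B.NB χ u₁)
    (he : ∀ᶠ u in 𝓝 u₁, (∀ i, χ u (e i) = u i) ∧ ∃ z, DimGE (W (B.ψ (χ u))) z k)
    {S : Set (Mat g)}
    (hS : IsMfd S d) (hSS : S ⊆ Siegel g) (hM : BigMon S) (h1 : ∀ᶠ u in 𝓝 u₁, B.ψ (χ u) ∈ S)
    (h2 : 𝓝[S] (B.ψ (χ u₁)) ≤ map (fun u => B.ψ (χ u)) (𝓝 u₁))
    (hs : IsSimple (B.ψ (χ u₁))) : d + c ≤ g * (g + 1) / 2 := by
  have hall : ∀ᶠ u in 𝓝 u₁, B.NB χ u ∧ (∀ᶠ u' in 𝓝 u, ∀ i, χ u' (e i) = u' i) ∧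
      (∃ z, DimGE (W (B.ψ (χ u))) z k) ∧ B.ψ (χ u) ∈ S :=
    hχ.eventually.and ((he.mono fun u h => h.1).eventually_nhds.and
      ((he.mono fun u h => h.2).and h1))
  obtain ⟨r, hr, hb⟩ := Metric.eventually_nhds_iff_ball.1 hall
  refine xh_core hW (ψ := fun u => B.ψ (χ u)) (ch := fun i => B.yc (e i)) (x₀ := u₁)
    hS hSS hM B.hN B.h0 B.hs (fun j => B.hy _) hr
    (fun x hx => AnalyticAt.comp (B.an _ (hb x hx).1.2.2) (hb x hx).1.1) h2 (fun x hx => ?_) hs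
    (fun x hx ξ => ⟨fun a b => B.nash_VdV hg (hb x hx).1 ξ a b,
      fun a b => B.nash_dP hg (hb x hx).1 ξ a b⟩)
    fun x hx ε => B.nash_yq' hg (hb x hx).1 B.hN B.h0 (B.hhc ε) (B.mem _ (hb x hx).1.2.2).2.1.2.1
  obtain ⟨a1, a2, a3, a4⟩ := hb x hx
  have hm := B.mem _ a1.2.2
  exact ⟨a4, hm.2.1, fun i => (hm.2.2 _).trans (a2.self_of_nhds i), Box.NB.inj B a1 a2, a3⟩

end Pool.Agent.MP_cf0a82_ag
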