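import Pool.Agent.MP_f58063_ag.E.Defs

/-! Strata of the Andreotti-Mayer loci by the rank of the Hessian of theta: definitions. -/

noncomputable section

namespace Pool.Agent.MP_f58063_ag

/-- the matrix of the second derivatives of theta in `z` -/
def hess {g : ℕ} (τ : Mat g) (z : Fin g → ℂ) : Matrix (Fin g) (Fin g) ℂ :=
  Matrix.of fun i j =>
    fderiv ℂ (fun w => fderiv ℂ (theta τ) w (Pi.single j 1)) z (Pi.single i 1)

/-- the theta divisor has a `k`-dimensional family of singular points at which the Hessian has
corank at least `r` -/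
def AMrank (g k r : ℕ) : Set (Mat g) :=
  {τ ∈ Siegel g | ∃ z, DimGE {w ∈ singTheta τ | (hess τ w).rank + r ≤ g} z k}

/-- the theta divisor has a `k`-dimensional family of double points whose tangent cone is a
quadric of corank at least `r` -/
def AMdouble (g k r : ℕ) : Set (Mat g) :=
  {τ ∈ Siegel g | ∃ z, DimGE {w ∈ singTheta τ | hess τ w ≠ 0 ∧ (hess τ w).rank + r ≤ g} z k}

end Pool.Agent.MP_f58063_ag
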