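import Pool.Agent.Mg.Fcf0a82q.G253713

/-! Big monodromy from dimension `2 g - 2` on. -/

open Complex Filter Topology Matrix Function
open scoped ComplexOrder

noncomputable section

namespace Pool.Agent.MP_f58063_ag

variable {g : ℕ}

lemma xh_vec {r : ℕ} {W : Submodule ℂ (Matrix (Fin g) (Fin g) ℂ)}
    {e : Fin r → Matrix (Fin g) (Fin g) ℂ} (h : Fram W e) (i : Fin r) {u : Fin g → ℂ}
    (hu : u ≠ 0) (hu' : e i *ᵥ u = star u) (hno : ∀ w, w ≠ 0 → vecMulVec w w ∉ W) :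
    ∃ v, v ≠ 0 ∧ pp e i *ᵥ v = v ∧ u ⬝ᵥ v = 0 := by
  by_contra hc
  push Not at hc
  have hN : u ⬝ᵥ star u ≠ 0 := fun h0 => hu (dotProduct_self_star_eq_zero.1 h0)
  have h1 : pp e i *ᵥ star u = star u := by rw [← hu', mulVec_mulVec, xeje_pe h]
  have h2 : ∀ y, e i *ᵥ y = ((star u ⬝ᵥ y) / (u ⬝ᵥ star u)) • star u := fun y => by
    have h3 : u ⬝ᵥ e i *ᵥ y = star u ⬝ᵥ y := by
      rw [dotProduct_mulVec, ← mulVec_transpose, xejc_eT h, hu']
    by_contra h4
    refine hc _ (sub_ne_zero.2 h4) ?_ ?_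
    · rw [mulVec_sub, mulVec_smul, h1, mulVec_mulVec, xeje_pe h]
    · rw [dotProduct_sub, dotProduct_smul, h3, smul_eq_mul, div_mul_cancel₀ _ hN, sub_self]
  refine hno (star u) (star_ne_zero.2 hu) ?_
  have h5 : vecMulVec (star u) (star u) = (u ⬝ᵥ star u) • e i := by
    refine Matrix.ext_of_mulVec_single fun a => ?_
    rw [smul_mulVec, h2, smul_smul, mul_div_cancel₀ _ hN, vecMulVec_mulVec]
    simp
  rw [h5]
  exact W.smul_mem _ (h.mem i)

theorem Fram.dim_le {r : ℕ} {W : Submodule ℂ (Matrix (Fin g) (Fin g) ℂ)}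
    {e : Fin r → Matrix (Fin g) (Fin g) ℂ} (h : Fram W e) (hr : r ≤ 2) (hg : 3 ≤ g)
    (hno : ∀ w, w ≠ 0 → vecMulVec w w ∉ W) : Module.finrank ℂ W + 3 ≤ 2 * g := by
  choose u hu hu' using h.real_vec
  let Φ : W →ₗ[ℂ] (Fin r → Fin g → ℂ) :=
    { toFun := fun x i => (x : Matrix (Fin g) (Fin g) ℂ) *ᵥ u i
      map_add' := fun x y => by funext i; simp [add_mulVec]
      map_smul' := fun c x => by funext i; simp [smul_mulVec] }
  have hΦ : Injective Φ := by
    rw [injective_iff_map_eq_zero]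
    intro x hx
    refine Subtype.ext (h.max x x.2 fun i => ?_)
    have h1 := congrArg transpose (h.inj (hu i) (hu' i) x.2 (congrFun hx i))
    rwa [transpose_mul, xejb_transpose (h.jt.sym _ (h.mem i)), h.jt.sym _ x.2,
      transpose_zero] at h1
  have hd : Module.finrank ℂ (Fin r → Fin g → ℂ) = r * g := by
    rw [Module.finrank_pi_fintype]; simp
  rcases Nat.lt_or_ge r 2 with h2 | h2
  · have h3 := LinearMap.finrank_le_finrank_of_injective hΦ
    have h4 : r * g ≤ 1 * g := Nat.mul_le_mul_right g (by omega)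
    omega
  obtain rfl : r = 2 := by omega
  choose v hv0 hv1 hv2 using fun i => xh_vec h i (hu i) (hu' i) hno
  have a1 : ∀ i, ((e i)ᴴ * e i) *ᵥ u i = u i := fun i => by
    rw [← mulVec_mulVec, hu', xejb_star (xejc_eT h i), hu', star_star]
  have a2 : ∀ i j, i ≠ j → u i ⬝ᵥ v j = 0 := fun i j hij => by
    rw [← a1 i, ← h.pp_transpose, mulVec_transpose, ← dotProduct_mulVec, ← hv1 j, mulVec_mulVec,
      h.pp_mul, if_neg hij, zero_mulVec, dotProduct_zero]
  have a3 : ∀ i, ∀ x ∈ W, star (v i) ⬝ᵥ x *ᵥ u i = 0 := fun i x hx => by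
    obtain ⟨c, hc⟩ := h.min i x hx
    have h1 : star (v i) ⬝ᵥ star (u i) = 0 := by
      rw [star_dotProduct_star, hv2, star_zero]
    rw [← hv1 i, star_mulVec, Fram.pp_star, ← dotProduct_mulVec, ← a1 i, mulVec_mulVec,
      mulVec_mulVec, pp, hc, smul_mulVec, hu', dotProduct_smul, h1, smul_zero]
  let Λ : (Fin 2 → Fin g → ℂ) →ₗ[ℂ] ℂ × ℂ × ℂ :=
    { toFun := fun y => (u 1 ⬝ᵥ y 0 - u 0 ⬝ᵥ y 1, star (v 0) ⬝ᵥ y 0, star (v 1) ⬝ᵥ y 1)
      map_add' := fun y y' => by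
        simp only [Pi.add_apply, dotProduct_add, Prod.mk_add_mk]
        congr 1
        ring
      map_smul' := fun c y => by
        simp only [Pi.smul_apply, dotProduct_smul, smul_eq_mul, RingHom.id_apply, Prod.smul_mk,
          mul_sub] }
  have hΛ : LinearMap.range Λ = ⊤ := by
    refine LinearMap.range_eq_top.2 fun t => ?_
    have n1 : u 1 ⬝ᵥ star (u 1) ≠ 0 := fun h0 => hu 1 (dotProduct_self_star_eq_zero.1 h0)
    have n2 : ∀ i, star (v i) ⬝ᵥ v i ≠ 0 := fun i h0 => hv0 i (dotProduct_star_self_eq_zero.1 h0)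
    have n3 : star (v 0) ⬝ᵥ star (u 1) = 0 := by
      rw [star_dotProduct_star, a2 1 0 (by decide), star_zero]
    refine ⟨![(t.1 / (u 1 ⬝ᵥ star (u 1))) • star (u 1) + (t.2.1 / (star (v 0) ⬝ᵥ v 0)) • v 0,
      (t.2.2 / (star (v 1) ⬝ᵥ v 1)) • v 1], ?_⟩
    change (_, _, _) = t
    simp only [cons_val_zero, cons_val_one, dotProduct_add, dotProduct_smul, smul_eq_mul,
      a2 1 0 (by decide), a2 0 1 (by decide), n3, mul_zero, add_zero, sub_zero, zero_add,
      div_mul_cancel₀ _ n1, div_mul_cancel₀ _ (n2 _)]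
  have h3 : LinearMap.range Φ ≤ LinearMap.ker Λ := by
    rintro _ ⟨x, rfl⟩
    refine Prod.ext ?_ (Prod.ext (a3 0 x x.2) (a3 1 x x.2))
    change u 1 ⬝ᵥ (x : Matrix (Fin g) (Fin g) ℂ) *ᵥ u 0 -
      u 0 ⬝ᵥ (x : Matrix (Fin g) (Fin g) ℂ) *ᵥ u 1 = 0
    rw [dotProduct_mulVec, ← mulVec_transpose, h.jt.sym _ x.2, dotProduct_comm, sub_self]
  have h4 := Submodule.finrank_mono h3
  have h5 := LinearMap.finrank_range_add_finrank_ker Λ
  rw [LinearMap.finrank_range_of_inj hΦ] at h4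
  rw [hΛ, finrank_top, hd, Module.finrank_prod, Module.finrank_prod, Module.finrank_self] at h5
  omega

theorem jt_full2 {W : Submodule ℂ (Matrix (Fin g) (Fin g) ℂ)} (h : JT W) (hirr : JIrr W)
    (hg : 3 ≤ g) (hd : 2 * g ≤ Module.finrank ℂ W + 2) :
    ∀ x : Matrix (Fin g) (Fin g) ℂ, xᵀ = x → x ∈ W := by
  obtain ⟨w, hw, hW⟩ : ∃ w : Fin g → ℂ, w ≠ 0 ∧ vecMulVec w w ∈ W := by
    obtain ⟨r, e, he⟩ := exists_Fram h
    by_cases hr : r ≤ 2
    · by_contra hc
      push Not at hc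
      exact absurd (he.dim_le hr hg hc) (by omega)
    · exact he.rank_one hirr (by omega)
  exact jt_of_rank_one h hirr hw hW

lemma xh_dim2 {N A : Submodule ℂ (Matrix (LL g) (LL g) ℂ)} (hg : 0 < g) (hN : Red N)
    (hA : IsId N A) (hη : Eta g ∈ A) : 2 * Module.finrank ℂ (upW N) < Module.finrank ℂ A := by
  have hup : ∀ Z ∈ upW N, up Z ∈ A := fun Z hZ => by
    have h1 := hA.2 _ hZ _ hη
    rw [xecorea_up] at h1
    exact (A.smul_mem_iff two_ne_zero).1 h1
  let b := Module.finBasis ℂ (upW N)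
  have hlo : ∀ i, xecorebLo (b i).1ᴴ ∈ A := fun i => by
    rw [← xecoreb_up_star]
    exact xeredastar hN hA (hup _ (b i).2)
  let Θ : (upW N × (Fin (Module.finrank ℂ (upW N)) → ℂ) × ℂ) →ₗ[ℂ] A :=
    { toFun := fun t => ⟨up t.1.1 + ∑ i, t.2.1 i • xecorebLo (b i).1ᴴ + t.2.2 • Eta g,
        A.add_mem (A.add_mem (hup _ t.1.2) (A.sum_mem fun i _ => A.smul_mem _ (hlo i)))
          (A.smul_mem _ hη)⟩
      map_add' := fun s t => Subtype.ext (by
        simp only [Prod.fst_add, Prod.snd_add, Submodule.coe_add, up_add, Pi.add_apply, add_smul,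
          Finset.sum_add_distrib]
        abel)
      map_smul' := fun c t => Subtype.ext (by
        simp only [Prod.smul_fst, Prod.smul_snd, Submodule.coe_smul, up_smul, Pi.smul_apply,
          smul_eq_mul, RingHom.id_apply, smul_add, Finset.smul_sum, smul_smul]) }
  have hΘ : Injective Θ := by
    rw [injective_iff_map_eq_zero]
    rintro ⟨Z, a, c⟩ ht
    have h1 : up Z.1 + ∑ i, a i • xecorebLo (b i).1ᴴ + c • Eta g = 0 := congrArg Subtype.val ht
    have h2 : Z.1 = 0 := by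
      ext x y
      simpa [up, Eta, xecorebLo, Matrix.sum_apply] using congrFun (congrFun h1 (.inl x)) (.inr y)
    have h3 : c = 0 := by
      simpa [up, Eta, xecorebLo, Matrix.sum_apply] using
        congrFun (congrFun h1 (.inl ⟨0, hg⟩)) (.inl ⟨0, hg⟩)
    have h4 : ∑ i, star (a i) • b i = 0 := by
      refine Subtype.ext ?_
      ext x y
      have h5 := congrArg star (congrFun (congrFun h1 (.inr y)) (.inl x))
      simpa [up, Eta, xecorebLo, Matrix.sum_apply] using h5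
    have h6 : a = 0 := funext fun i =>
      star_eq_zero.1 (Fintype.linearIndependent_iff.1 b.linearIndependent _ h4 i)
    exact Prod.ext (Subtype.ext h2) (Prod.ext h6 h3)
  have h7 := LinearMap.finrank_le_finrank_of_injective hΘ
  rw [Module.finrank_prod, Module.finrank_prod, Module.finrank_fin_fun, Module.finrank_self] at h7
  omega

/-- every ideal that contains the grading element is irreducible -/
theorem core_comm2 {N : Submodule ℂ (Matrix (LL g) (LL g) ℂ)} (hN : Red N) (hη : Eta g ∈ N)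
    (φ : (ℂ ≃+* ℂ) → Matrix (LL g) (LL g) ℂ ≃+* Matrix (LL g) (LL g) ℂ)
    (hφ : ∀ σ (z : ℂ) X, φ σ (z • X) = σ z • φ σ X) (hφN : ∀ σ X, φ σ X ∈ N ↔ X ∈ N)
    (hH : ∀ C : Submodule ℂ (Matrix (LL g) (LL g) ℂ), (∀ σ, ∀ X ∈ C, φ σ X ∈ C) →
      (∀ X ∈ C, X * Eta g = Eta g * X) → ∀ X ∈ C, ∃ z : ℂ, X = z • (1 : Matrix (LL g) (LL g) ℂ))
    (hg : 0 < g) (hd : g ≤ Module.finrank ℂ (upW N)) {C : Submodule ℂ (Matrix (LL g) (LL g) ℂ)}
    (hC : IsId N C) (hηC : Eta g ∈ C) {T : Matrix (LL g) (LL g) ℂ} (hT : ∀ X ∈ C, T * X = X * T) :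
    ∃ z : ℂ, T = z • (1 : Matrix (LL g) (LL g) ℂ) := by
  set A : Submodule ℂ (Matrix (LL g) (LL g) ℂ) := sInf {B | IsId N B ∧ Eta g ∈ B} with hAdef
  have hle : ∀ B, IsId N B → Eta g ∈ B → A ≤ B := fun B h1 h2 => sInf_le ⟨h1, h2⟩
  have hAη : Eta g ∈ A := Submodule.mem_sInf.2 fun B hB => hB.2
  have hA : IsId N A := ⟨(hle C hC hηC).trans hC.1, fun X hX Y hY =>
    Submodule.mem_sInf.2 fun B hB => hB.1.2 X hX Y (hle B hB.1 hB.2 hY)⟩
  have hdim := (Nat.mul_le_mul_left 2 hd).trans_lt (xh_dim2 hg hN hA hAη)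
  have key : ∀ σ, ∀ X ∈ A, (φ σ).symm X ∈ A := by
    intro σ
    have h1 : IsId N (xecoreaIm σ (φ σ) (hφ σ) A) := by
      refine ⟨fun X hX => ?_, fun X hX Y hY => ?_⟩
      · have := (hφN σ _).2 (hA.1 hX)
        rwa [RingEquiv.apply_symm_apply] at this
      · change (φ σ).symm _ ∈ A
        rw [map_sub, map_mul, map_mul]
        refine hA.2 _ ((hφN σ _).1 ?_) _ hY
        rwa [RingEquiv.apply_symm_apply]
    have h2 : Eta g * Eta g = 1 := by simp [Eta, fromBlocks_multiply]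
    rcases hN.dich h1 hη h2 with h3 | ⟨C', h3, h4, h5⟩
    · exact hle _ h1 h3
    · have h6 := hN.dim h1 (D := A) fun a ha b hb => h5 a ha b (hle C' h3 h4 hb)
      rw [← xecorea_finrank, Fintype.card_sum, Fintype.card_fin, ← two_mul, sq] at h6
      exact absurd h6 (not_le.2 (Nat.mul_self_lt_mul_self hdim))
  let Cm : Submodule ℂ (Matrix (LL g) (LL g) ℂ) :=
    { carrier := {T | ∀ X ∈ A, T * X = X * T}
      add_mem' := fun {a b} ha hb X hX => by rw [add_mul, mul_add, ha X hX, hb X hX]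
      zero_mem' := fun X _ => by rw [zero_mul, mul_zero]
      smul_mem' := fun c a ha X hX => by rw [smul_mul_assoc, mul_smul_comm, ha X hX] }
  refine hH Cm (fun σ S hS X hX => ?_) (fun S hS => hS _ hAη) T fun X hX => hT X (hle C hC hηC hX)
  have := congrArg (φ σ) (hS _ (key σ X hX))
  rwa [map_mul, map_mul, RingEquiv.apply_symm_apply] at this

/-- the Lie algebra that kills the invariant tensors is the whole symplectic Lie algebra -/
theorem kills_all2 (hg : 3 ≤ g) {G : Type} {r : G → Matrix (LL g) (LL g) ℂ}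
    (hr : ∀ γ a b, ∃ z : ℤ, r γ a b = z) {c : Matrix (LL g) (LL g) ℂ} (hc : IsUnit c.det)
    (hsp : ∀ X, c * X * c⁻¹ ∈ spK g ℂ ↔ X ∈ spK g ℂ) (hcj : cj c = c * swp g)
    (hμ : ∀ (κ : Type) [Fintype κ] [DecidableEq κ] (T : (κ → LL g) → ℂ), Fixd r T →
      Fixd r (dkr κ (c * Eta g * c⁻¹) *ᵥ T))
    (hE : ∀ T : Matrix (LL g) (LL g) ℂ, (∀ a b, ∃ q : ℚ, T a b = q) →
      T * (c * Eta g * c⁻¹) = c * Eta g * c⁻¹ * T → ∃ z : ℂ, T = z • (1 : Matrix (LL g) (LL g) ℂ))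
    (W : Submodule ℂ (Matrix (Fin g) (Fin g) ℂ)) (hd : 2 * g ≤ Module.finrank ℂ W + 2)
    (hW : ∀ Z ∈ W, Zᵀ = Z ∧ Kills r (c * up Z * c⁻¹)) :
    ∀ ξ ∈ spK g ℂ, Kills r ξ := by
  have ad_lie : ∀ X Y : Matrix (LL g) (LL g) ℂ, c * (X * Y - Y * X) * c⁻¹ =
      c * X * c⁻¹ * (c * Y * c⁻¹) - c * Y * c⁻¹ * (c * X * c⁻¹) := fun X Y => by
    have h := map_sub (xeglueAd c hc) (X * Y) (Y * X)
    rwa [map_mul, map_mul] at h
  have φsp : ∀ σ, ∀ X ∈ spK g ℂ, xegluePhi c hc σ X ∈ spK g ℂ := fun σ X hX => by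
    rw [← hsp, xeglue_ad_phi]
    exact xeglue_sp_map σ ((hsp X).2 hX)
  have φG : ∀ σ, ∀ X ∈ xeglueG r c, xegluePhi c hc σ X ∈ xeglueG r c := fun σ X hX =>
    ⟨φsp σ X hX.1, by
      rw [xeglue_ad_phi]
      exact xeglue_map hr σ hX.2⟩
  have φN : ∀ σ, ∀ X ∈ xeglueN (xeglueG r c), xegluePhi c hc σ X ∈ xeglueN (xeglueG r c) :=
    fun σ X hX => ⟨φsp σ X hX.1, fun Y hY => by
      rw [← xeglue_phi_symm hc σ Y, ← map_mul, ← map_mul, ← map_sub]
      exact φG σ _ (hX.2 _ (φG _ Y hY))⟩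
  have φN' : ∀ σ X, xegluePhi c hc σ X ∈ xeglueN (xeglueG r c) ↔ X ∈ xeglueN (xeglueG r c) :=
    fun σ X => ⟨fun h => by
      have h1 := φN σ.symm _ h
      have h2 := xeglue_phi_symm hc σ.symm X
      rw [RingEquiv.symm_symm] at h2
      rwa [h2] at h1, φN σ X⟩
  have hη : Eta g ∈ xeglueN (xeglueG r c) := ⟨xeglue_E_sp, fun Y hY =>
    ⟨xeglue_sp_lie xeglue_E_sp hY.1, by
      rw [ad_lie]
      exact xeglue_lie hY.2 hμ⟩⟩
  have hH := xeglue_hH hc hE
  have hN : Red (xeglueN (xeglueG r c)) :=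
    { lie := fun X hX Y hY => xeglue_N_lie hX hY
      star := fun X hX => by
        have hY := φN conjAe.toRingEquiv X hX
        rw [xeglue_star hc hcj hX.1]
        generalize xegluePhi c hc conjAe.toRingEquiv X = Y at hY ⊢
        have e : Eta g * (Eta g * Y - Y * Eta g) - (Eta g * Y - Y * Eta g) * Eta g =
            (2 : ℂ) • (Y - Eta g * Y * Eta g) := by
          rw [Matrix.mul_sub, Matrix.sub_mul, ← Matrix.mul_assoc, xeglue_EE, Matrix.mul_assoc Y,
            xeglue_EE, two_smul]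
          noncomm_ring
        have h1 := Submodule.smul_mem _ (2 : ℂ)⁻¹ (xeglue_N_lie hη (xeglue_N_lie hη hY))
        rw [e, inv_smul_smul₀ two_ne_zero] at h1
        have h2 := Submodule.sub_mem _ h1 hY
        rwa [sub_sub_cancel_left] at h2
      tr := fun X hX => xeglue_trace hX.1
      comm := fun T hT => hH (xeglueC (xeglueN (xeglueG r c)))
        (fun σ S hS X hX => by
          rw [← xeglue_phi_symm hc σ X, ← map_mul, ← map_mul, hS _ (φN _ X hX)])
        (fun S hS => hS _ hη) T hT }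
  have hid : IsId (xeglueN (xeglueG r c)) (xeglueG r c) :=
    ⟨fun X hX => ⟨hX.1, fun Y hY => ⟨xeglue_sp_lie hX.1 hY.1, by
      rw [ad_lie]
      exact xeglue_lie' hX.2 hY.2⟩⟩, fun X hX => hX.2⟩
  have hWG : ∀ Z ∈ W, up Z ∈ xeglueG r c := fun Z hZ => ⟨xeglue_up_sp (hW Z hZ).1, (hW Z hZ).2⟩
  have hWN : W ≤ upW (xeglueN (xeglueG r c)) := fun Z hZ => hid.1 (hWG Z hZ)
  have hW0 : W ≠ ⊥ := by
    rintro rfl
    rw [finrank_bot] at hd
    omega
  have hd' : 2 * g ≤ Module.finrank ℂ (upW (xeglueN (xeglueG r c))) + 2 :=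
    hd.trans (Nat.add_le_add_right (Submodule.finrank_mono hWN) 2)
  have hηG : Eta g ∈ xeglueG r c := by
    rcases hN.dich hid hη xeglue_EE with h | ⟨C', -, h1, h2⟩
    · exact h
    · exact absurd ((Submodule.eq_bot_iff W).2 fun Z hZ => xeglue_up_E (h2 _ (hWG Z hZ) _ h1)) hW0
  have hirr := core_irr hN hη (fun h => hW0 (le_bot_iff.1 (h ▸ hWN))) fun C hC hηC T hT =>
    core_comm2 hN hη (xegluePhi c hc) (xeglue_phi_smul hc) φN' hH (by omega) (by omega) hC hηC hT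
  have hall := core_all hN hid hηG (jt_full2 (core_jt hN fun X hX => hX.1) hirr hg hd')
  intro ξ hξ
  have e : c * (c⁻¹ * ξ * c) * c⁻¹ = ξ := (xeglueAd c hc).apply_symm_apply ξ
  have h1 := (hall ((hsp _).1 (e.symm ▸ hξ))).2
  rwa [e] at h1

/-- a subvariety of dimension at least `2 g - 2` with a member without nontrivial endomorphisms
has big monodromy -/
theorem bigMon_of2 {d : ℕ} {S : Set (Mat g)} (hc : IsPreconnected S) (hSS : S ⊆ Siegel g)
    (hF : FinCover S d) {τ₀ : Mat g} (h0 : τ₀ ∈ S) (hE : EndZ τ₀) (hg : 3 ≤ g)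
    (hd : 2 * g ≤ d + 2) : BigMon S := by
  intro Γ hΓ P hP M hM
  obtain ⟨Δ, R, y, hle, h⟩ := hF.covD hSS hΓ
  have hS := h.mfd hc
  refine dense_of_kills (Δ := Δ) ?_ P
    (fun γ hγ => hP γ (hle hγ) fun τ hτ => (h.inv γ hγ τ hτ).1) M hM
  obtain ⟨A, hA⟩ := exists_UF (hSS h0)
  obtain ⟨f, hf0, hf, hinj, hm⟩ := hS.2 τ₀ h0
  have hev : ∀ᶠ x in 𝓝 (0 : Fin d → ℂ), f x ∈ S := by
    have : S ∈ map f (𝓝 0) := hm ▸ self_mem_nhdsWithin
    exact this
  let L : (Fin d → ℂ) →ₗ[ℂ] Matrix (Fin g) (Fin g) ℂ :=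
    { toFun := fun x => I • (Aᵀ * Matrix.of (fderiv ℂ f 0 x) * A)
      map_add' := fun x x' => by
        rw [map_add, ← Matrix.of_add_of, Matrix.mul_add, Matrix.add_mul, smul_add]
      map_smul' := fun c x => by
        rw [map_smul, ← Matrix.smul_of, Matrix.mul_smul, Matrix.smul_mul, smul_comm]
        rfl }
  have hL : Injective L := by
    refine (injective_iff_map_eq_zero L).2 fun x hx => hinj ?_
    have h1 : Aᵀ * Matrix.of (fderiv ℂ f 0 x) * A = 0 :=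
      (smul_eq_zero.1 hx).resolve_left I_ne_zero
    have hu : IsUnit Aᵀ.det := by
      rw [det_transpose]
      exact hA.det
    have h2 := congrArg (fun B => Aᵀ⁻¹ * B * A⁻¹) h1
    simp only [Matrix.mul_assoc, Matrix.mul_nonsing_inv _ hA.det, Matrix.mul_one,
      Matrix.nonsing_inv_mul_cancel_left _ _ hu, Matrix.zero_mul, Matrix.mul_zero] at h2
    rw [map_zero]
    exact h2
  refine kills_all2 hg (fun γ a b => ⟨γ.1.1 a b, rfl⟩) (uf_det (hSS h0) hA) (uf_sp (hSS h0) hA)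
    (uf_cj hA) (fun κ _ _ T hT => ?_) (fun T hT hT' => ?_) (LinearMap.range L) ?_ ?_
  · rw [uf_mu hA]
    exact fixd_mu h hS hT h0
  · rw [uf_mu hA] at hT'
    exact hE.scalar (hSS h0) hT hT'
  · rw [LinearMap.finrank_range_of_inj hL]
    simpa using hd
  · rintro _ ⟨x, rfl⟩
    have hl : AnalyticAt ℂ (fun t : ℂ => t • x) 0 := analyticAt_id.smul analyticAt_const
    have hτ : AnalyticAt ℂ (fun t : ℂ => f (t • x)) 0 :=
      AnalyticAt.comp_of_eq hf hl (zero_smul ℂ x)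
    have hτS : ∀ᶠ t in 𝓝 (0 : ℂ), f (t • x) ∈ S :=
      hl.continuousAt.eventually (p := fun z => f z ∈ S) (by simpa only [zero_smul] using hev)
    have hder : HasDerivAt (fun t : ℂ => f (t • x)) (fderiv ℂ f 0 x) 0 := by
      have h1 : HasDerivAt (fun t : ℂ => t • x) x 0 := by
        simpa using (hasDerivAt_id (0 : ℂ)).smul_const x
      exact hf.differentiableAt.hasFDerivAt.comp_hasDerivAt_of_eq 0 h1 (zero_smul ℂ x).symm
    have e0 : f ((0 : ℂ) • x) = τ₀ := by rw [zero_smul, hf0]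
    have hk := kills_tan h hS hτ hτS (A := A) (by simpa only [e0] using hA)
    simp only [e0, hder.deriv] at hk
    refine ⟨?_, hk⟩
    have hsym : (Matrix.of (fderiv ℂ f 0 x))ᵀ = Matrix.of (fderiv ℂ f 0 x) := by
      ext a b
      have h1 := hasDerivAt_pi.1 (hasDerivAt_pi.1 hder a) b
      have h2 := hasDerivAt_pi.1 (hasDerivAt_pi.1 hder b) a
      exact (h2.congr_of_eventuallyEq (hτS.mono fun t ht => (hSS ht).1 a b)).unique h1
    change (I • (Aᵀ * Matrix.of (fderiv ℂ f 0 x) * A))ᵀ = I • (Aᵀ * Matrix.of (fderiv ℂ f 0 x) * A)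
    rw [transpose_smul, transpose_mul, transpose_mul, transpose_transpose, hsym, Matrix.mul_assoc]

end Pool.Agent.MP_f58063_ag
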