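import Pool.Agent.MP_f58063_ag.H.Core
import Pool.Agent.MP_f58063_ag.H.Defs
import Pool.Agent.MP_f58063_ag.H.Mon

/-! Spreading out the Hessian strata, and the codimension bounds. -/

open Complex Filter Topology Matrix Function

noncomputable section

namespace Pool.Agent.MP_cf0a82_ag

open Pool.Agent.MP_f58063_ag

/-- singular points with a Hessian of corank at least `r`, which is not zero if `p` holds -/
def HS {g : ℕ} (p : Prop) (r : ℕ) (τ : Mat g) : Set (EE g) :=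
  {w ∈ singTheta τ | (p → hess τ w ≠ 0) ∧ (hess τ w).rank + r ≤ g}

lemma xh_hess {g : ℕ} (τ : Mat g) (z : EE g) : hess τ z = Matrix.of (pol τ z []) := rfl

/-- the Hessian at a singular point in a chart -/
lemma xh_chain {g : ℕ} {f u : EE g → ℂ} {σ : EE g → EE g} {w : EE g}
    (hf : AnalyticAt ℂ f (σ w)) (hu : AnalyticAt ℂ u w) (hσ : AnalyticAt ℂ σ w)
    (h0 : f (σ w) = 0) (h1 : fderiv ℂ f (σ w) = 0) :
    (Matrix.of fun i j => dI [i, j] (fun y => u y * f (σ y)) w) =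
      u w • (Matrix.of fun a i => fderiv ℂ σ w (ee i) a)ᵀ *
        (Matrix.of fun i j => dI [i, j] f (σ w)) * Matrix.of fun a i => fderiv ℂ σ w (ee i) a := by
  have hfσ : AnalyticAt ℂ (fun y => f (σ y)) w := hf.comp hσ
  have hd : ∀ j, dv (ee j) (fun y => f (σ y)) =ᶠ[𝓝 w]
      fun y => ∑ b, fderiv ℂ σ y (ee j) b * dv (ee b) f (σ y) := fun j => by
    filter_upwards [hσ.eventually_analyticAt, hσ.continuousAt.eventually hf.eventually_analyticAt]
      with y k1 k2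
    rw [dv_apply, fderiv_fun_comp y k2.differentiableAt k1.differentiableAt,
      ContinuousLinearMap.comp_apply, fderiv_eq_sum]
  have hz : ∀ b, dv (ee b) f (σ w) = 0 := fun b => by simp [dv_apply, h1]
  have hm := dI_mul_unit hu hfσ (m := 2) fun L hL => by
    obtain _ | ⟨i, _ | ⟨j, L⟩⟩ := L
    · exact h0
    · change dv (ee i) (fun y => f (σ y)) w = 0
      rw [(hd i).eq_of_nhds]
      simp [hz]
    · simp at hL
  ext i j
  have h2 : ∀ b, HasFDerivAt (fun y => fderiv ℂ σ y (ee j) b * dv (ee b) f (σ y))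
      (fderiv ℂ σ w (ee j) b • (fderiv ℂ (dv (ee b) f) (σ w)).comp (fderiv ℂ σ w)) w := fun b => by
    have k1 : AnalyticAt ℂ (fun y => fderiv ℂ σ y (ee j) b) w :=
      analyticAt_pi_iff.1 (((ContinuousLinearMap.apply ℂ (EE g) (ee j)).analyticAt _).comp
        hσ.fderiv) b
    have k2 := (analyticAt_dv hf (ee b)).differentiableAt.hasFDerivAt.comp w
      hσ.differentiableAt.hasFDerivAt
    refine (k1.differentiableAt.hasFDerivAt.mul k2).congr_fderiv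
      (ContinuousLinearMap.ext fun v => ?_)
    simp [hz]
  have h3 : dI [i, j] (fun y => f (σ y)) w =
      ∑ b, fderiv ℂ σ w (ee j) b * ∑ a, fderiv ℂ σ w (ee i) a * dI [a, b] f (σ w) := by
    change fderiv ℂ (dv (ee j) fun y => f (σ y)) w (ee i) = _
    rw [(hd j).fderiv_eq, (HasFDerivAt.fun_sum fun b _ => h2 b).fderiv, _root_.sum_apply]
    refine Finset.sum_congr rfl fun b _ => ?_
    rw [_root_.smul_apply, ContinuousLinearMap.comp_apply, fderiv_eq_sum, smul_eq_mul]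
    rfl
  rw [Matrix.of_apply, hm _ (by simp), h3]
  simp only [Matrix.mul_apply, Matrix.smul_apply, Matrix.transpose_apply, Matrix.of_apply,
    smul_eq_mul, Finset.mul_sum, Finset.sum_mul]
  exact Finset.sum_congr rfl fun b _ => Finset.sum_congr rfl fun a _ => by ring

variable {g : ℕ} {B : Box g} (A : Atl B)

/-- the Hessian of the local equation -/
def Atl.H (t : ℕ × (LL g → ℚ)) (y : DD g × EE g) : Matrix (Fin g) (Fin g) ℂ :=
  Matrix.of fun i j => dd ([i, j].map fun i => ((0 : DD g), ee i)) (A.F t) y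

theorem Atl.H_nash (hg : 0 < g) {t : ℕ × (LL g → ℚ)} {y : DD g × EE g} (hy : y ∈ A.O t.1)
    (i j : Fin g) : NashAt (fun e => A.H t e i j) y := ((A.F_nash t hg hy).dv _).dv _

theorem Atl.H_eq (hg : 0 < g) {t : ℕ × (LL g → ℚ)} {y : DD g × EE g} (hy : y ∈ A.Z t) :
    (A.H t y).rank = (hess (B.ψ y.1) (A.σ t.1 y)).rank ∧
      (A.H t y = 0 ↔ hess (B.ψ y.1) (A.σ t.1 y) = 0) := by
  obtain ⟨x, w⟩ := y
  obtain ⟨⟨h0, h1, h2⟩, h3⟩ := hy
  obtain ⟨u, hu⟩ : ∃ u : DD g × EE g → ℂ, u = fun e => thc (rq t.2) (B.ψ e.1) (A.σ t.1 e) *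
    thc (rq (-t.2)) (B.ψ e.1) (A.σ t.1 e) / B.φ (A.j t.1) (B.ψ e.1) (A.σ t.1 e) := ⟨_, rfl⟩
  have ua : AnalyticAt ℂ u (x, w) := hu ▸ ((xksinga_an A _ h0).mul (xksinga_an A _ h0)).div
    (xbns_an (A.ns _ _ h0).1 (Box.NB.fst (A.sub _ _ h0)) _) (A.ne _ _ h0)
  have u0 : u (x, w) ≠ 0 := hu ▸ div_ne_zero (mul_ne_zero h1 h2) (A.ne _ _ h0)
  have hF : (fun w' => A.F t (x, w')) =
      fun w' => u (x, w') * theta (B.ψ x) (A.σ t.1 (x, w')) := by
    funext e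
    have e0 : rq (0 : LL g → ℚ) = fun _ => 0 := funext fun i => by simp [rq]
    simp only [hu, Atl.F, tp, neg_zero, zero_sub, e0, xstf_zero]
    ring
  have hin : AnalyticAt ℂ (fun w' : EE g => (x, w')) w := analyticAt_const.prod analyticAt_id
  have hσ : AnalyticAt ℂ (fun w' => A.σ t.1 (x, w')) w :=
    (A.ns _ _ h0).1.comp (f := fun w' => (x, w')) hin
  have e1 := xh_chain (f := theta (B.ψ x)) (u := fun w' => u (x, w'))
    (theta_analytic (Siegel_sub (B.sieg (A.sub _ _ h0))) _)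
    (ua.comp (f := fun w' => (x, w')) hin) hσ h3.1 h3.2
  set J : Matrix (Fin g) (Fin g) ℂ :=
    Matrix.of fun a i => fderiv ℂ (fun w' => A.σ t.1 (x, w')) w (ee i) a with hJ
  have e2 : A.H t (x, w) = u (x, w) • Jᵀ * hess (B.ψ x) (A.σ t.1 (x, w)) * J := by
    refine Eq.trans ?_ e1
    ext i j
    rw [← hF]
    exact dd_slice (A.F_nash t hg h0).1 [i, j]
  have hJu : IsUnit J.det := by
    refine (isUnit_iff_isUnit_det _).1 (mulVec_injective_iff_isUnit.1 ?_)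
    refine (injective_iff_map_eq_zero J.mulVecLin).2 fun v hv => A.inj t.1 _ h0 v ?_
    have e := ((A.ns t.1 _ h0).1.differentiableAt.hasFDerivAt.comp w
      (hasFDerivAt_prodMk_right (𝕜 := ℂ) x w)).fderiv
    have e3 : fderiv ℂ (fun w' => A.σ t.1 (x, w')) w v = J *ᵥ v := by
      conv_lhs => rw [xdd_sum_ee v]
      funext a
      simp only [map_sum, map_smul, Finset.sum_apply, Pi.smul_apply, smul_eq_mul, hJ,
        Matrix.mulVec, dotProduct, Matrix.of_apply, mul_comm]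
    exact (congrArg (fun L : EE g →L[ℂ] EE g => L v) e).symm.trans (e3.trans hv)
  have hJt : IsUnit (u (x, w) • Jᵀ).det := by
    rw [det_smul, det_transpose]
    exact (pow_ne_zero _ u0).isUnit.mul hJu
  refine ⟨?_, fun h => ?_, fun h => ?_⟩
  · rw [e2, rank_mul_eq_left_of_isUnit_det _ _ hJu, rank_mul_eq_right_of_isUnit_det _ _ hJt]
  · have := congrArg (fun M => (u (x, w) • Jᵀ)⁻¹ * M * J⁻¹) (e2.symm.trans h)
    simp only [Matrix.mul_zero, Matrix.zero_mul] at this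
    rw [← this, Matrix.mul_assoc (u (x, w) • Jᵀ), Matrix.nonsing_inv_mul_cancel_left _ _ hJt,
      Matrix.mul_nonsing_inv_cancel_right _ _ hJu]
  · rw [e2, h, Matrix.mul_zero, Matrix.zero_mul]

/-- the domain of the equations of a stratum -/
def Atl.Ω' (p : Prop) (t : (ℕ × (LL g → ℚ)) × Fin g × Fin g) : Set (DD g × EE g) :=
  {y | y ∈ A.Ω t.1 ∧ (p → A.H t.1 y t.2.1 t.2.2 ≠ 0)}

/-- a stratum in a chart -/
def Atl.Z' (p : Prop) (r : ℕ) (t : (ℕ × (LL g → ℚ)) × Fin g × Fin g) : Set (DD g × EE g) :=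
  {y | y ∈ A.Ω' p t ∧ A.σ t.1.1 y ∈ HS p r (B.ψ y.1)}

theorem Atl.isOpen_Ω' (hg : 0 < g) (p : Prop) (t : (ℕ × (LL g → ℚ)) × Fin g × Fin g) :
    IsOpen (A.Ω' p t) := by
  refine isOpen_iff_mem_nhds.2 fun y hy => ?_
  by_cases hp : p
  · filter_upwards [(A.isOpen_Ω t.1).mem_nhds hy.1,
      (A.H_nash hg hy.1.1 t.2.1 t.2.2).1.continuousAt.eventually_ne (hy.2 hp)] with e h1 h2
    exact ⟨h1, fun _ => h2⟩
  · filter_upwards [(A.isOpen_Ω t.1).mem_nhds hy.1] with e h1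
    exact ⟨h1, fun h => absurd h hp⟩

theorem Atl.dim_iff' (hg : 0 < g) {k r : ℕ} {p : Prop} {x : DD g} (hx : x ∈ B.ball) :
    (∃ z, DimGE (HS p r (B.ψ x)) z k) ↔ ∃ t w, DimGE {w' | (x, w') ∈ A.Z' p r t} w k := by
  have hτ := B.sieg hx
  have hσ : ∀ a w, (x, w) ∈ A.O a → AnalyticAt ℂ (fun w' => A.σ a (x, w')) w := fun a w h =>
    (A.ns a _ h).1.comp (f := fun w' => (x, w')) (analyticAt_const.prod analyticAt_id)
  constructor
  · rintro ⟨z, h⟩
    obtain ⟨a, ρ, h1, h2, h3⟩ := A.cov x hx z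
    obtain ⟨c, h4, h5⟩ := xksingb_c hτ.2 z
    have hz : z ∈ HS p r (B.ψ x) := by
      obtain ⟨γ, rfl, -, -, k3⟩ := h
      exact k3.self_of_nhds
    have hΩ : (x, ρ z) ∈ A.Ω (a, c) := by
      refine ⟨h2, ?_, ?_⟩ <;> simp only [h3.self_of_nhds] <;> assumption
    obtain ⟨i, j, hij⟩ : ∃ i j, p → A.H (a, c) (x, ρ z) i j ≠ 0 := by
      by_cases hp : p
      · have k1 := (A.H_eq hg (t := (a, c)) (y := (x, ρ z))
          ⟨hΩ, by simpa only [h3.self_of_nhds] using hz.1⟩).2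
        simp only [h3.self_of_nhds] at k1
        by_contra k2
        push Not at k2
        exact hz.2.1 hp (k1.1 (Matrix.ext fun i j => (k2 i j).2))
      · exact ⟨⟨0, hg⟩, ⟨0, hg⟩, fun h => absurd h hp⟩
    refine ⟨((a, c), i, j), ρ z, xksingb_map h h1 ?_ ?_⟩
    · have e : fderiv ℂ ((fun w' => A.σ a (x, w')) ∘ ρ) z = ContinuousLinearMap.id ℂ _ :=
        (EventuallyEq.fderiv_eq (f := id) h3).trans fderiv_id
      rw [fderiv_comp z (hσ a _ h2).differentiableAt h1.differentiableAt] at e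
      refine Injective.of_comp (f := fderiv ℂ (fun w' => A.σ a (x, w')) (ρ z)) ?_
      rw [← ContinuousLinearMap.coe_comp, e]
      exact injective_id
    · have e1 : ∀ᶠ z' in 𝓝 z, (x, ρ z') ∈ A.Ω' p ((a, c), i, j) :=
        (continuousAt_const.prodMk h1.continuousAt).eventually
          ((A.isOpen_Ω' hg p _).mem_nhds ⟨hΩ, hij⟩)
      filter_upwards [h3, e1] with z' a1 a2 a5
      refine ⟨a2, ?_⟩
      simpa only [a1] using a5
  · rintro ⟨t, w, h⟩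
    have hw : (x, w) ∈ A.O t.1.1 := by
      obtain ⟨γ, rfl, -, -, h3⟩ := h
      exact h3.self_of_nhds.1.1.1
    refine ⟨_, xksingb_map h (hσ t.1.1 w hw) ?_ (Eventually.of_forall fun w' h' => h'.2)⟩
    refine (injective_iff_map_eq_zero _).2 fun v hv => A.inj t.1.1 _ hw v ?_
    have e := ((A.ns t.1.1 _ hw).1.differentiableAt.hasFDerivAt.comp w
      (hasFDerivAt_prodMk_right (𝕜 := ℂ) x w)).fderiv
    rw [← hv]
    exact (congrArg (fun L : EE g →L[ℂ] EE g => L v) e).symm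

/-- a germ in a stratum lies in a Nash germ in the stratum -/
theorem spreadH {g k d r₀ : ℕ} {p : Prop} (hg : 0 < g) (B : Box g) {f : (Fin d → ℂ) → Mat g}
    (hf : AnalyticAt ℂ f 0) (hi : Injective (fderiv ℂ f 0)) (h0 : f 0 = B.ψ B.x₀)
    (h : ∀ᶠ m in 𝓝 0, f m ∈ Siegel g ∧ ∃ z, DimGE (HS p r₀ (f m)) z k) {G U : Set (Fin d → ℂ)}
    (hG : G ∈ residual (Fin d → ℂ)) (hU : U ∈ 𝓝 0) :
    ∃ (r : ℕ) (e : Fin r → Fin (NN g)) (χ : (Fin r → ℂ) → DD g) (u₀ : Fin r → ℂ), d ≤ r ∧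
      B.NB χ u₀ ∧ (∃ m ∈ G ∩ U, B.ψ (χ u₀) = f m) ∧
      ∀ᶠ u in 𝓝 u₀, (∀ i, χ u (e i) = u i) ∧ ∃ z, DimGE (HS p r₀ (B.ψ (χ u))) z k := by
  obtain ⟨A⟩ := atl_exists hg B
  obtain ⟨x, hx, hi', he⟩ := xkspr_lift B hf hi h0 (h.mono fun m hm => hm.1)
  choose R hR hS using fun t : (ℕ × (LL g → ℚ)) × Fin g × Fin g =>
    exists_NR (Module.finBasis ℂ (DD g × EE g)) (A.isOpen_Ω' hg p t)
    (S := insert (A.F t.1) ((Set.range fun i => dv ((0, ee i) : DD g × EE g) (A.F t.1))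
      ∪ ((Set.range fun j (q : DD g × EE g) => q.1 j) ∪ Set.range
        fun (a : (Fin (g - r₀ + 1) → Fin g) × (Fin (g - r₀ + 1) → Fin g)) q =>
          ((A.H t.1 q).submatrix a.1 a.2).det)))
    (((Set.countable_range _).union
      ((Set.countable_range _).union (Set.countable_range _))).insert _) (by
      rintro _ (rfl | ⟨i, rfl⟩ | ⟨j, rfl⟩ | ⟨a, rfl⟩) y hy
      · exact A.F_nash t.1 hg hy.1.1
      · exact (A.F_nash t.1 hg hy.1.1).dv _
      · exact NashAt.clm ((ContinuousLinearMap.proj j).comp (ContinuousLinearMap.fst ℂ _ _)) y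
      · exact NashAt.det (F := fun q => (A.H t.1 q).submatrix a.1 a.2)
          fun i j => A.H_nash hg hy.1.1 _ _)
  obtain ⟨r, e, χ, u₀, h1, h2, h3, ⟨m, hm, h4⟩, h5⟩ := spread_abs (k := k) (Z := A.Z' p r₀) _ hR
    (fun t j => hS t (Or.inr (Or.inr (Or.inl ⟨j, rfl⟩)))) (fun t y hy => hy.1)
    (fun t q hq q' hq' h => by
      have k0 : q ∈ A.Z t.1 := ⟨hq.1.1, hq.2.1⟩
      obtain ⟨h1, h2⟩ := (A.mem_Z t.1 hq.1.1).1 k0
      have k1 : q' ∈ A.Z t.1 := (A.mem_Z t.1 hq'.1).2 ⟨h _ (hS t (Or.inl rfl)) h1,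
        fun i => h _ (hS t (Or.inr (Or.inl ⟨i, rfl⟩))) (h2 i)⟩
      have k2 := hq.2.2.2
      rw [← (A.H_eq hg k0).1] at k2
      have k3 := (rank_le_iff_minors (A.H t.1 q) (g - r₀)).1 (by omega)
      have k4 := (rank_le_iff_minors (A.H t.1 q') (g - r₀)).2 fun a b =>
        h _ (hS t (Or.inr (Or.inr (Or.inr ⟨(a, b), rfl⟩)))) (k3 a b)
      refine ⟨hq', k1.2, fun hp h6 => hq'.2 hp ?_, ?_⟩
      · rw [(A.H_eq hg k1).2.2 h6]
        rfl
      · rw [← (A.H_eq hg k1).1]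
        omega) hx hi'
    (by
      filter_upwards [h, he] with m h1 h2
      exact (A.dim_iff' hg h2.1).1 (h2.2 ▸ h1.2)) hG (inter_mem hU he)
  have h6 : χ u₀ ∈ B.ball := h4 ▸ hm.2.2.1
  refine ⟨r, e, χ, u₀, h1, ⟨h2, h3, h6⟩, ⟨m, ⟨hm.1, hm.2.1⟩, h4 ▸ hm.2.2.2⟩, ?_⟩
  filter_upwards [h5, h2.continuousAt.eventually (B.isOpen_ball.mem_nhds h6)] with u h7 h8
  exact ⟨h7.1, (A.dim_iff' hg h8).2 h7.2⟩

theorem hs_ineq {g k d r₀ c : ℕ} {p : Prop} (hg3 : 3 ≤ g) (hd : 2 * g ≤ d + 2)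
    (hW : ∀ τ ∈ Siegel g, ∀ z ∈ HS p r₀ τ, PolData τ z k c) {τ : Mat g} (hE : EndZ τ)
    (h : DimGE {τ ∈ Siegel g | ∃ z, DimGE (HS p r₀ τ) z k} τ d) : d + c ≤ g * (g + 1) / 2 := by
  have hg : 0 < g := by omega
  obtain ⟨f, rfl, hf, hi, hA⟩ := h
  have hS : ∀ᶠ x in 𝓝 0, f x ∈ Siegel g := hA.mono fun x hx => hx.1
  obtain ⟨B, hB⟩ := box_exists hS.self_of_nhds
  obtain ⟨G, hG, U, hU, h1⟩ := xkmain_res hf hS hE
  obtain ⟨r, e, χ, u₀, hr, hχ, ⟨m, hm, h2⟩, h3⟩ := spreadH hg B hf hi hB.symm hA hG hU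
  obtain ⟨G', hG', U', hU', h4⟩ := xkmain_res (f := fun u => B.ψ (χ u))
    ((B.ψ_an hχ.2.2).comp hχ.1) (hχ.eventually.mono fun u hu => B.sieg hu.2.2) (h2 ▸ h1 m hm)
  obtain ⟨u₁, ⟨k1, k2, k3, k4⟩, S, hc, hSS, hF, h5, h6⟩ := globalize hg B hχ
    (h3.mono fun u hu => hu.1) hG' (inter_mem hU' (hχ.eventually.and h3.eventually_nhds))
  have h7 := h4 u₁ ⟨k1, k2⟩
  obtain ⟨Δ, R, y, -, hC⟩ := hF.covD hSS (Γ := ⊤) inferInstance
  have h8 := sharpH hW hg B k3 k4 (hC.mfd hc) hSS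
    (bigMon_of2 hc hSS hF h5.self_of_nhds h7 hg3 (by omega)) h5 h6
    (h7.simple (hSS h5.self_of_nhds))
  omega

theorem double_ineq {g k r d : ℕ} (hg : 3 ≤ g) {τ : Mat g} (hE : EndZ τ)
    (h : DimGE (AMdouble g k r) τ d) :
    d + 3 ≤ 2 * g ∨ d + (k + 1 + r * (r + 1) / 2) ≤ g * (g + 1) / 2 := by
  by_cases hd : 2 * g ≤ d + 2
  · refine Or.inr (hs_ineq (k := k) (r₀ := r) (p := True) hg hd
      (fun τ _ z hz => polData_double hz.1 (hz.2.1 trivial) hz.2.2 le_rfl) hE ?_)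
    simpa only [AMdouble, HS, true_imp_iff] using h
  · exact Or.inl (by omega)

theorem rank_ineq {g k r d : ℕ} (hk : k + 3 ≤ g) {τ : Mat g} (hE : EndZ τ)
    (h : DimGE (AMrank g k r) τ d) :
    d + min (k + 1 + r * (r + 1) / 2) (g + k * (k + 1) / 2) ≤ g * (g + 1) / 2 := by
  by_cases hd : 2 * g ≤ d + 2
  · refine hs_ineq (k := k) (r₀ := r) (p := False) (by omega) hd (fun τ hτ z hz => ?_) hE ?_
    · by_cases h0 : pol τ z [] = 0
      · exact polData_triple hτ hz.1 h0 (min_le_right _ _)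
      · exact polData_double hz.1 h0 hz.2.2 (min_le_left _ _)
    · simpa only [AMrank, HS, false_imp_iff, true_and] using h
  · obtain ⟨m, rfl⟩ : ∃ m, g = m + 3 := ⟨g - 3, by omega⟩
    have h1 : k * (k + 1) ≤ m * (m + 1) := Nat.mul_le_mul (by omega) (by omega)
    have h2 : (m + 3) * (m + 3 + 1) = m * (m + 1) + (3 * m + 6) * 2 := by ring
    rw [h2, Nat.add_mul_div_right _ _ two_pos]
    have h3 := Nat.div_le_div_right (c := 2) h1
    omega

end Pool.Agent.MP_cf0a82_ag
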